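import Pool.Agent.Helper26.UMDA.DriftC

/-!
The parameters: all requirements hold for `lam = ⌊c log n⌋` and large `n`.
-/

namespace Pool.Agent.Helper26.UMDA

open Finset Filter

theorem exists_large {s : ℝ} (hs : 0 < s) (J : ℕ) : ∃ Λ : ℝ, ∀ x : ℝ, Λ ≤ x →
    Real.exp (-(s / 2 * x)) ≤ 1 / 8 ∧ Real.exp (-(s * x)) ≤ 1 / 12 ∧
    Real.exp (-(s * x)) ≤ s / 8 ∧ 2 * (J + 2) * x * Real.exp (-(s * x)) ≤ 1 / 8 ∧
    8 * x * Real.exp (-(s * x)) ≤ s := by
  have h1 : Tendsto (fun x : ℝ => Real.exp (-(s / 2 * x))) atTop (nhds 0) := by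
    apply Real.tendsto_exp_neg_atTop_nhds_zero.comp
    exact tendsto_id.const_mul_atTop (by positivity)
  have h2 : Tendsto (fun x : ℝ => Real.exp (-(s * x))) atTop (nhds 0) := by
    apply Real.tendsto_exp_neg_atTop_nhds_zero.comp
    exact tendsto_id.const_mul_atTop hs
  have h3 : Tendsto (fun x : ℝ => x * Real.exp (-(s * x))) atTop (nhds 0) := by
    have h4 := (Real.tendsto_pow_mul_exp_neg_atTop_nhds_zero 1).comp
      ((tendsto_id (α := ℝ) (x := atTop)).const_mul_atTop hs)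
    have h5 := h4.const_mul (1 / s)
    rw [mul_zero] at h5
    refine h5.congr ?_
    intro x
    simp only [Function.comp, id, pow_one]
    field_simp
  have e1 := h1.eventually (ge_mem_nhds (by norm_num : (0:ℝ) < 1 / 8))
  have e2 := h2.eventually (ge_mem_nhds (by norm_num : (0:ℝ) < 1 / 12))
  have e3 := h2.eventually (ge_mem_nhds (by positivity : (0:ℝ) < s / 8))
  have e4 := h3.eventually (ge_mem_nhds (by positivity : (0:ℝ) < 1 / (16 * (J + 2))))
  have e5 := h3.eventually (ge_mem_nhds (by positivity : (0:ℝ) < s / 8))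
  obtain ⟨Λ, hΛ⟩ := eventually_atTop.mp (e1.and (e2.and (e3.and (e4.and e5))))
  refine ⟨Λ, fun x hx => ?_⟩
  obtain ⟨g1, g2, g3, g4, g5⟩ := hΛ x hx
  refine ⟨g1, g2, g3, ?_, ?_⟩
  · have h6 : (0:ℝ) < 16 * (J + 2) := by positivity
    rw [le_div_iff₀ h6] at g4
    linarith
  · linarith

theorem exists_par {c : ℝ} (hc0 : 0 < c) (hc1 : c ≤ 1) : ∃ (s A : ℝ) (J n0 : ℕ),
    ∀ n : ℕ, n0 ≤ n → Par n ⌊c * Real.log n⌋₊ ⌊p0 / 8 * ⌊c * Real.log n⌋₊⌋₊ J s A := by
  have hp0 := p0_pos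
  have hp1 := p0_le
  set s : ℝ := c * p0 / 4096 with hs
  have hs0 : 0 < s := by positivity
  have hsle : s ≤ p0 / 4096 := by
    rw [hs]
    apply div_le_div_of_nonneg_right _ (by norm_num)
    exact mul_le_of_le_one_left hp0.le hc1
  set A : ℝ := 16 / p0 * (1 + 12 / c) with hA
  set J : ℕ := ⌈16 / (s * c)⌉₊ + 1 with hJ
  obtain ⟨Λ0, hΛ0⟩ := exists_large hs0 J
  have hδ : ∃ δ : ℝ, 0 < δ ∧ ∀ t ≤ J, δ ≤ zl A t := by
    obtain ⟨t0, ht0, hmin⟩ := Finset.exists_min_image (Finset.range (J + 1)) (zl A)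
      ⟨0, by simp⟩
    exact ⟨zl A t0, zl_pos A t0, fun t ht => hmin t (by simp; omega)⟩
  obtain ⟨δ, hδ0, hδ⟩ := hδ
  set Λ : ℝ := max (max Λ0 1) (24 / p0) with hΛ
  have hΛ1 : 1 ≤ Λ := (le_max_right _ _).trans (le_max_left _ _)
  have hΛ2 : Λ0 ≤ Λ := (le_max_left _ _).trans (le_max_left _ _)
  have hΛ3 : 24 / p0 ≤ Λ := le_max_right _ _
  have ev1 : ∀ᶠ n : ℕ in atTop, 2 * Λ / c ≤ Real.log n :=
    (Real.tendsto_log_atTop.comp tendsto_natCast_atTop_atTop).eventually_ge_atTop _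
  have ev2 : ∀ᶠ n : ℕ in atTop, 1 / δ ≤ (n:ℝ) :=
    tendsto_natCast_atTop_atTop.eventually_ge_atTop _
  obtain ⟨n0, hn0⟩ := eventually_atTop.mp (ev1.and (ev2.and (eventually_ge_atTop 4)))
  refine ⟨s, A, J, n0, fun n hn => ?_⟩
  obtain ⟨g1, g2, g3⟩ := hn0 n hn
  set ℓ := Real.log n with hℓ
  set lam : ℕ := ⌊c * ℓ⌋₊ with hlam
  set mu : ℕ := ⌊p0 / 8 * (lam : ℝ)⌋₊ with hmu
  have hn0' : (0:ℝ) < n := by
    have : 0 < n := by omega
    exact_mod_cast this
  have hcl : 2 * Λ ≤ c * ℓ := by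
    rw [div_le_iff₀ hc0] at g1
    linarith
  have hℓ0 : 0 < ℓ := by
    by_contra hcon
    push Not at hcon
    have := mul_nonpos_of_nonneg_of_nonpos hc0.le hcon
    linarith
  have hlam1 : (lam : ℝ) ≤ c * ℓ := Nat.floor_le (by positivity)
  have hlam2 : c / 2 * ℓ ≤ lam := by
    have := Nat.lt_floor_add_one (c * ℓ)
    rw [← hlam] at this
    linarith
  have hlamΛ : Λ ≤ lam := by linarith
  have hlam0 : (0:ℝ) < lam := by linarith
  have hmu1 : (mu : ℝ) ≤ p0 / 8 * lam := Nat.floor_le (by positivity)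
  have h3 : 3 ≤ p0 / 8 * lam := by
    have h4 : 24 / p0 ≤ lam := hΛ3.trans hlamΛ
    rw [div_le_iff₀ hp0] at h4
    linarith
  have hmu2 : p0 / 16 * lam ≤ mu := by
    have := Nat.lt_floor_add_one (p0 / 8 * (lam:ℝ))
    rw [← hmu] at this
    linarith
  have hmu3 : 2 ≤ mu := by
    rw [hmu]
    apply Nat.le_floor
    push_cast
    linarith
  have hmulam : (mu : ℝ) ≤ lam := by
    refine hmu1.trans ?_
    exact mul_le_of_le_one_left hlam0.le (by linarith)
  have hlog : ℓ ≤ n - 1 := Real.log_le_sub_one_of_pos hn0'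
  have hlamn : (lam : ℝ) ≤ n := by
    have := mul_le_of_le_one_left hℓ0.le hc1
    linarith
  have hn4 : (4:ℝ) ≤ n := by exact_mod_cast g3
  obtain ⟨f1, f2, f3, f4, f5⟩ := hΛ0 lam (hΛ2.trans hlamΛ)
  have hexpn : ∀ m : ℕ, 1 / (n:ℝ) ^ m = Real.exp (-(m * ℓ)) := by
    intro m
    rw [Real.exp_neg, Real.exp_nat_mul, hℓ, Real.exp_log hn0', one_div]
  have hmu0 : (0:ℝ) < mu := by
    have : 0 < mu := by omega
    exact_mod_cast this
  have hJr : (J : ℝ) ≤ 16 / (s * c) + 2 := by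
    rw [hJ]
    push_cast
    have := Nat.ceil_lt_add_one (by positivity : 0 ≤ 16 / (s * c))
    linarith
  have hJr2 : 16 / (s * c) ≤ (J:ℝ) - 1 := by
    rw [hJ]
    push_cast
    have := Nat.le_ceil (16 / (s * c))
    linarith
  refine
    { hn := g3
      hmu := hmu3
      hmun := ?_
      hml := hmu1
      hs0 := hs0
      hs1 := ?_
      hsW := ?_
      hA := ?_
      hJ := by omega
      hzl := ?_
      hbl := ?_
      hjn := ?_
      he1 := f1
      he2 := f2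
      he3 := f3
      he4 := f4
      he5 := ?_
      he6 := ?_ }
  · have : (mu:ℝ) ≤ n := hmulam.trans hlamn
    exact_mod_cast this
  · linarith
  · have h5 : (J:ℝ) / 2 + 1 ≤ 8 / (s * c) + 2 := by
      have : 16 / (s * c) = 2 * (8 / (s * c)) := by ring
      linarith
    have h6 : 2 * s ^ 2 * ((J:ℝ) / 2 + 1) ≤ 2 * s ^ 2 * (8 / (s * c) + 2) :=
      mul_le_mul_of_nonneg_left h5 (by positivity)
    have h7 : 2 * s ^ 2 * (8 / (s * c) + 2) = 16 * (s / c) + 4 * s ^ 2 := by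
      field_simp
      ring
    have h8 : s / c = p0 / 4096 := by
      rw [hs]; field_simp
    rw [h7, h8] at h6
    have h9 : s ^ 2 ≤ s := by
      rw [sq]
      exact mul_le_of_le_one_left hs0.le (by linarith)
    linarith
  · have h5 : 16 ≤ 16 / p0 := by
      rw [le_div_iff₀ hp0]
      linarith
    have h6 : 0 < 12 / c := by positivity
    rw [hA]
    have h7 : 16 / p0 ≤ 16 / p0 * (1 + 12 / c) :=
      le_mul_of_one_le_right (by positivity) (by linarith)
    linarith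
  · intro t ht
    refine le_trans ?_ (hδ t ht)
    rw [div_le_iff₀ hδ0] at g2
    rw [div_le_iff₀ hn0']
    linarith
  · rw [hexpn 6]
    apply Real.exp_le_exp.mpr
    have h5 : A * (p0 / 16 * lam) ≤ A * mu := by
      apply mul_le_mul_of_nonneg_left hmu2
      rw [hA]
      positivity
    have h6 : A * (p0 / 16 * lam) = lam + 12 / c * lam := by
      rw [hA]; field_simp
    have h7 : 12 / c * (c / 2 * ℓ) ≤ 12 / c * lam := mul_le_mul_of_nonneg_left hlam2 (by positivity)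
    have h8 : 12 / c * (c / 2 * ℓ) = 6 * ℓ := by field_simp; norm_num
    push_cast
    linarith
  · rw [hexpn 3]
    have h5 : (n:ℝ) = Real.exp ℓ := by rw [hℓ, Real.exp_log hn0']
    conv_lhs => rw [h5]
    rw [← Real.exp_add]
    apply Real.exp_le_exp.mpr
    have h6 : s / 2 * (c / 2 * ℓ) * (16 / (s * c)) ≤ s / 2 * lam * ((J:ℝ) - 1) := by
      apply mul_le_mul _ hJr2 (by positivity) (by positivity)
      exact mul_le_mul_of_nonneg_left hlam2 (by positivity)
    have h7 : s / 2 * (c / 2 * ℓ) * (16 / (s * c)) = 4 * ℓ := by field_simp; norm_num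
    push_cast
    linarith
  · rw [div_le_div_iff₀ (by positivity) (by positivity)]
    have h5 : (mu:ℝ) ^ 2 ≤ lam ^ 2 := pow_le_pow_left₀ hmu0.le hmulam 2
    have h6 : Real.exp (-(s * lam)) * (8 * (mu:ℝ) ^ 2) ≤
        Real.exp (-(s * lam)) * (8 * (lam:ℝ) ^ 2) :=
      mul_le_mul_of_nonneg_left (by linarith) (Real.exp_pos _).le
    have h7 := mul_le_mul_of_nonneg_right f5 hlam0.le
    have h8 : Real.exp (-(s * lam)) * (8 * (lam:ℝ) ^ 2) =
        8 * lam * Real.exp (-(s * lam)) * lam := by ring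
    rw [h8] at h6
    linarith
  · rw [div_le_div_iff₀ (by positivity) (by positivity)]
    have h5 : (mu:ℝ) ^ 2 ≤ n ^ 2 := pow_le_pow_left₀ hmu0.le (hmulam.trans hlamn) 2
    have h6 : 4 * (n:ℝ) ^ 2 ≤ n ^ 3 := by
      calc 4 * (n:ℝ) ^ 2 ≤ n * (n:ℝ) ^ 2 := mul_le_mul_of_nonneg_right hn4 (sq_nonneg _)
        _ = n ^ 3 := by ring
    linarith

end Pool.Agent.Helper26.UMDA
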