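import Mathlib

/-!
Expectations for the sampling step of the UMDA: product measures on populations.
-/

namespace Pool.Agent.Helper26.UMDA

open Finset

variable {n lam : ℕ}

/-- weight of one sample -/
noncomputable def sw (p : Fin n → ℝ) (x : Fin n → Bool) : ℝ :=
  ∏ i, (if x i = true then p i else 1 - p i)

/-- weight of a population -/
noncomputable def pw (p : Fin n → ℝ) (X : Fin lam → Fin n → Bool) : ℝ := ∏ j, sw p (X j)

/-- expectation over one sample -/
noncomputable def E1 (p : Fin n → ℝ) (F : (Fin n → Bool) → ℝ) : ℝ := ∑ x, sw p x * F x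

/-- expectation over a population -/
noncomputable def EP (p : Fin n → ℝ) (F : (Fin lam → Fin n → Bool) → ℝ) : ℝ :=
  ∑ X, pw p X * F X

theorem E1_prod (p : Fin n → ℝ) (f : Fin n → Bool → ℝ) :
    E1 p (fun x => ∏ i, f i (x i)) = ∏ i, (p i * f i true + (1 - p i) * f i false) := by
  unfold E1 sw
  simp_rw [← Finset.prod_mul_distrib]
  have h := Finset.prod_univ_sum (fun _ : Fin n => (Finset.univ : Finset Bool))
    (fun i b => (if b = true then p i else 1 - p i) * f i b)
  rw [Fintype.piFinset_univ] at h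
  rw [← h]
  apply Finset.prod_congr rfl
  intro i _
  simp

theorem EP_prod (p : Fin n → ℝ) (F : Fin lam → (Fin n → Bool) → ℝ) :
    EP p (fun X => ∏ j, F j (X j)) = ∏ j, E1 p (F j) := by
  unfold EP E1 pw
  simp_rw [← Finset.prod_mul_distrib]
  have h := Finset.prod_univ_sum (fun _ : Fin lam => (Finset.univ : Finset (Fin n → Bool)))
    (fun j x => sw p x * F j x)
  rw [Fintype.piFinset_univ] at h
  rw [← h]

/-- valid probability vectors -/
def Valid (p : Fin n → ℝ) : Prop := ∀ i, 0 ≤ p i ∧ p i ≤ 1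

theorem sw_nonneg {p : Fin n → ℝ} (hp : Valid p) (x : Fin n → Bool) : 0 ≤ sw p x := by
  unfold sw
  apply Finset.prod_nonneg
  intro i _
  have := hp i
  split_ifs <;> linarith

theorem pw_nonneg {p : Fin n → ℝ} (hp : Valid p) (X : Fin lam → Fin n → Bool) : 0 ≤ pw p X := by
  unfold pw
  exact Finset.prod_nonneg fun j _ => sw_nonneg hp _

theorem E1_one (p : Fin n → ℝ) : E1 p (fun _ => 1) = 1 := by
  have := E1_prod p (fun _ _ => 1)
  simp at this
  exact this

theorem EP_one (p : Fin n → ℝ) : EP p (fun _ : Fin lam → Fin n → Bool => 1) = 1 := by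
  have := EP_prod (lam := lam) p (fun _ _ => 1)
  simp [E1_one] at this
  exact this

theorem sum_pw (p : Fin n → ℝ) : ∑ X : Fin lam → Fin n → Bool, pw p X = 1 := by
  have := EP_one (lam := lam) p
  unfold EP at this
  simpa using this

theorem E1_mono {p : Fin n → ℝ} (hp : Valid p) {F G : (Fin n → Bool) → ℝ}
    (h : ∀ x, F x ≤ G x) : E1 p F ≤ E1 p G :=
  Finset.sum_le_sum fun x _ => mul_le_mul_of_nonneg_left (h x) (sw_nonneg hp x)

theorem EP_mono {p : Fin n → ℝ} (hp : Valid p) {F G : (Fin lam → Fin n → Bool) → ℝ}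
    (h : ∀ x, F x ≤ G x) : EP p F ≤ EP p G :=
  Finset.sum_le_sum fun x _ => mul_le_mul_of_nonneg_left (h x) (pw_nonneg hp x)

theorem E1_add (p : Fin n → ℝ) (F G : (Fin n → Bool) → ℝ) :
    E1 p (fun x => F x + G x) = E1 p F + E1 p G := by
  simp [E1, mul_add, Finset.sum_add_distrib]

theorem EP_add (p : Fin n → ℝ) (F G : (Fin lam → Fin n → Bool) → ℝ) :
    EP p (fun x => F x + G x) = EP p F + EP p G := by
  simp [EP, mul_add, Finset.sum_add_distrib]

theorem EP_sub (p : Fin n → ℝ) (F G : (Fin lam → Fin n → Bool) → ℝ) :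
    EP p (fun x => F x - G x) = EP p F - EP p G := by
  simp [EP, mul_sub, Finset.sum_sub_distrib]

theorem E1_smul (p : Fin n → ℝ) (a : ℝ) (F : (Fin n → Bool) → ℝ) :
    E1 p (fun x => a * F x) = a * E1 p F := by
  unfold E1
  rw [Finset.mul_sum]
  apply Finset.sum_congr rfl
  intro x _
  ring

theorem EP_smul (p : Fin n → ℝ) (a : ℝ) (F : (Fin lam → Fin n → Bool) → ℝ) :
    EP p (fun x => a * F x) = a * EP p F := by
  unfold EP
  rw [Finset.mul_sum]
  apply Finset.sum_congr rfl
  intro x _
  ring

theorem EP_const (p : Fin n → ℝ) (a : ℝ) :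
    EP p (fun _ : Fin lam → Fin n → Bool => a) = a := by
  have := EP_smul (lam := lam) p a (fun _ => 1)
  simp [EP_one] at this
  exact this

theorem EP_sum {ι : Type*} (s : Finset ι) (p : Fin n → ℝ)
    (F : ι → (Fin lam → Fin n → Bool) → ℝ) :
    EP p (fun x => ∑ i ∈ s, F i x) = ∑ i ∈ s, EP p (F i) := by
  unfold EP
  simp_rw [Finset.mul_sum]
  rw [Finset.sum_comm]

theorem E1_sum {ι : Type*} (s : Finset ι) (p : Fin n → ℝ)
    (F : ι → (Fin n → Bool) → ℝ) :
    E1 p (fun x => ∑ i ∈ s, F i x) = ∑ i ∈ s, E1 p (F i) := by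
  unfold E1
  simp_rw [Finset.mul_sum]
  rw [Finset.sum_comm]

theorem E1_nonneg {p : Fin n → ℝ} (hp : Valid p) {F : (Fin n → Bool) → ℝ}
    (h : ∀ x, 0 ≤ F x) : 0 ≤ E1 p F :=
  Finset.sum_nonneg fun x _ => mul_nonneg (sw_nonneg hp x) (h x)

theorem EP_nonneg {p : Fin n → ℝ} (hp : Valid p) {F : (Fin lam → Fin n → Bool) → ℝ}
    (h : ∀ x, 0 ≤ F x) : 0 ≤ EP p F :=
  Finset.sum_nonneg fun x _ => mul_nonneg (pw_nonneg hp x) (h x)

/-- Cauchy-Schwarz, one sample -/
theorem E1_cs {p : Fin n → ℝ} (hp : Valid p) (F G : (Fin n → Bool) → ℝ) :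
    (E1 p (fun x => F x * G x)) ^ 2 ≤ E1 p (fun x => F x ^ 2) * E1 p (fun x => G x ^ 2) := by
  unfold E1
  have h := Finset.sum_mul_sq_le_sq_mul_sq Finset.univ
    (fun x => Real.sqrt (sw p x) * F x) (fun x => Real.sqrt (sw p x) * G x)
  have h1 : ∀ x, Real.sqrt (sw p x) * F x * (Real.sqrt (sw p x) * G x) = sw p x * (F x * G x) := by
    intro x
    have := Real.mul_self_sqrt (sw_nonneg hp x)
    calc _ = (Real.sqrt (sw p x) * Real.sqrt (sw p x)) * (F x * G x) := by ring
      _ = _ := by rw [this]
  have h2 : ∀ (H : (Fin n → Bool) → ℝ) x, (Real.sqrt (sw p x) * H x) ^ 2 = sw p x * (H x ^ 2) := by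
    intro H x
    rw [mul_pow, Real.sq_sqrt (sw_nonneg hp x)]
  simp only [h1, h2] at h
  exact h

/-- Cauchy-Schwarz, population -/
theorem EP_cs {p : Fin n → ℝ} (hp : Valid p) (F G : (Fin lam → Fin n → Bool) → ℝ) :
    (EP p (fun x => F x * G x)) ^ 2 ≤ EP p (fun x => F x ^ 2) * EP p (fun x => G x ^ 2) := by
  unfold EP
  have h := Finset.sum_mul_sq_le_sq_mul_sq Finset.univ
    (fun x => Real.sqrt (pw p x) * F x) (fun x => Real.sqrt (pw p x) * G x)
  have h1 : ∀ x, Real.sqrt (pw p x) * F x * (Real.sqrt (pw p x) * G x) = pw p x * (F x * G x) := by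
    intro x
    have := Real.mul_self_sqrt (pw_nonneg hp x)
    calc _ = (Real.sqrt (pw p x) * Real.sqrt (pw p x)) * (F x * G x) := by ring
      _ = _ := by rw [this]
  have h2 : ∀ (H : (Fin lam → Fin n → Bool) → ℝ) x,
      (Real.sqrt (pw p x) * H x) ^ 2 = pw p x * (H x ^ 2) := by
    intro H x
    rw [mul_pow, Real.sq_sqrt (pw_nonneg hp x)]
  simp only [h1, h2] at h
  exact h

/-- combine two populations: bits in `A` from `X`, the others from `Y` -/
def mix (A : Finset (Fin n)) (X Y : Fin lam → Fin n → Bool) : Fin lam → Fin n → Bool :=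
  fun j i => if i ∈ A then X j i else Y j i

theorem mix_mix_left (A : Finset (Fin n)) (X Y : Fin lam → Fin n → Bool) :
    mix A (mix A X Y) (mix A Y X) = X := by
  funext j i
  unfold mix
  split_ifs <;> rfl

/-- the involution exchanging the bits outside `A` -/
def mixEquiv (A : Finset (Fin n)) : Equiv ((Fin lam → Fin n → Bool) × (Fin lam → Fin n → Bool))
    ((Fin lam → Fin n → Bool) × (Fin lam → Fin n → Bool)) where
  toFun P := (mix A P.1 P.2, mix A P.2 P.1)
  invFun P := (mix A P.1 P.2, mix A P.2 P.1)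
  left_inv P := by
    ext1
    · exact mix_mix_left A _ _
    · exact mix_mix_left A _ _
  right_inv P := by
    ext1
    · exact mix_mix_left A _ _
    · exact mix_mix_left A _ _

theorem pw_mix (p : Fin n → ℝ) (A : Finset (Fin n)) (X Y : Fin lam → Fin n → Bool) :
    pw p (mix A X Y) * pw p (mix A Y X) = pw p X * pw p Y := by
  unfold pw sw
  simp_rw [← Finset.prod_mul_distrib]
  apply Finset.prod_congr rfl
  intro j _
  apply Finset.prod_congr rfl
  intro i _
  unfold mix
  by_cases h : i ∈ A
  · simp only [h, if_true]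
  · simp only [h, if_false]
    ring

/-- independence of the bits in `A` and the bits outside `A` -/
theorem EP_indep (p : Fin n → ℝ) (A : Finset (Fin n)) (F G : (Fin lam → Fin n → Bool) → ℝ)
    (hF : ∀ X Y, (∀ j, ∀ i ∈ A, X j i = Y j i) → F X = F Y)
    (hG : ∀ X Y, (∀ j, ∀ i, i ∉ A → X j i = Y j i) → G X = G Y) :
    EP p (fun X => F X * G X) = EP p F * EP p G := by
  have h1 : EP p F * EP p G = ∑ P : (Fin lam → Fin n → Bool) × (Fin lam → Fin n → Bool),
      (pw p P.1 * pw p P.2) * (F P.1 * G P.2) := by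
    unfold EP
    rw [Finset.sum_mul_sum, ← Finset.univ_product_univ, Finset.sum_product]
    apply Finset.sum_congr rfl
    intro X _
    apply Finset.sum_congr rfl
    intro Y _
    ring
  have h2 : EP p (fun X => F X * G X) =
      ∑ P : (Fin lam → Fin n → Bool) × (Fin lam → Fin n → Bool),
      (pw p P.1 * pw p P.2) * (F P.1 * G P.1) := by
    rw [← Finset.univ_product_univ, Finset.sum_product]
    unfold EP
    apply Finset.sum_congr rfl
    intro X _
    show pw p X * (F X * G X) = ∑ Y, pw p X * pw p Y * (F X * G X)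
    rw [← Finset.sum_mul, ← Finset.mul_sum, sum_pw, mul_one]
  rw [h1, h2, ← Equiv.sum_comp (mixEquiv A)]
  apply Finset.sum_congr rfl
  rintro ⟨X, Y⟩ _
  simp only [mixEquiv, Equiv.coe_fn_mk]
  rw [pw_mix]
  congr 2
  · apply hF
    intro j i hi
    simp [mix, hi]
  · apply hG
    intro j i hi
    simp [mix, hi]

/-- expectation of a function of one sample -/
theorem EP_single (p : Fin n → ℝ) (a : Fin lam) (F : (Fin n → Bool) → ℝ) :
    EP p (fun X => F (X a)) = E1 p F := by
  have h := EP_prod p (fun j x => if j = a then F x else 1)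
  have h1 : ∀ X : Fin lam → Fin n → Bool, (∏ j, if j = a then F (X j) else 1) = F (X a) := by
    intro X
    rw [Finset.prod_ite_eq' Finset.univ a (fun j => F (X j))]
    simp
  simp only [h1] at h
  rw [h]
  rw [Finset.prod_eq_single a]
  · simp
  · intro b _ hb
    simp [hb, E1_one]
  · intro h
    exact absurd (Finset.mem_univ a) h

/-- expectation of a function of one bit of one sample -/
theorem E1_bit (p : Fin n → ℝ) (i0 : Fin n) (f : Bool → ℝ) :
    E1 p (fun x => f (x i0)) = p i0 * f true + (1 - p i0) * f false := by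
  have h := E1_prod p (fun i b => if i = i0 then f b else 1)
  have h1 : ∀ x : Fin n → Bool, (∏ i, if i = i0 then f (x i) else 1) = f (x i0) := by
    intro x
    rw [Finset.prod_ite_eq' Finset.univ i0 (fun i => f (x i))]
    simp
  simp only [h1] at h
  rw [h]
  rw [Finset.prod_eq_single i0]
  · simp
  · intro b _ hb
    simp [hb]
  · intro h
    exact absurd (Finset.mem_univ i0) h

theorem EP_two (p : Fin n → ℝ) {a b : Fin lam} (hab : a ≠ b) (F G : (Fin n → Bool) → ℝ) :
    EP p (fun X => F (X a) * G (X b)) = E1 p F * E1 p G := by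
  have h := EP_prod p (fun j x => (if j = a then F x else 1) * (if j = b then G x else 1))
  have h1 : ∀ X : Fin lam → Fin n → Bool, (∏ j, (if j = a then F (X j) else 1) *
      (if j = b then G (X j) else 1)) = F (X a) * G (X b) := by
    intro X
    rw [Finset.prod_mul_distrib, Finset.prod_ite_eq' Finset.univ a (fun j => F (X j)),
      Finset.prod_ite_eq' Finset.univ b (fun j => G (X j))]
    simp
  simp only [h1] at h
  rw [h, ← Finset.prod_subset (Finset.subset_univ {a, b})]
  · rw [Finset.prod_pair hab]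
    simp [hab, hab.symm]
  · intro j _ hj
    simp only [Finset.mem_insert, Finset.mem_singleton, not_or] at hj
    simp [hj.1, hj.2, E1_one]

/-- permute the samples, separately for each bit position -/
def permEquiv (π : Fin n → Equiv.Perm (Fin lam)) :
    Equiv (Fin lam → Fin n → Bool) (Fin lam → Fin n → Bool) where
  toFun X := fun j i => X (π i j) i
  invFun X := fun j i => X ((π i).symm j) i
  left_inv X := by
    funext j i
    simp
  right_inv X := by
    funext j i
    simp

theorem pw_perm (p : Fin n → ℝ) (π : Fin n → Equiv.Perm (Fin lam))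
    (X : Fin lam → Fin n → Bool) : pw p (permEquiv π X) = pw p X := by
  unfold pw sw
  rw [Finset.prod_comm]
  conv_rhs => rw [Finset.prod_comm]
  apply Finset.prod_congr rfl
  intro i _
  simp only [permEquiv, Equiv.coe_fn_mk]
  exact Equiv.prod_comp (π i) (fun j => if X j i = true then p i else 1 - p i)

theorem EP_perm (p : Fin n → ℝ) (π : Fin n → Equiv.Perm (Fin lam))
    (F : (Fin lam → Fin n → Bool) → ℝ) :
    EP p (fun X => F (permEquiv π X)) = EP p F := by
  unfold EP
  rw [← Equiv.sum_comp (permEquiv π) (fun X => pw p X * F X)]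
  apply Finset.sum_congr rfl
  intro X _
  rw [pw_perm]

/-- number of zeros of a sample in the positions `M` -/
def zc (M : Finset (Fin n)) (x : Fin n → Bool) : ℝ := ∑ i ∈ M, (if x i = true then 0 else 1)

theorem zc_nonneg (M : Finset (Fin n)) (x : Fin n → Bool) : 0 ≤ zc M x := by
  unfold zc
  apply Finset.sum_nonneg
  intro i _
  split_ifs <;> norm_num

theorem E1_zc (p : Fin n → ℝ) (M : Finset (Fin n)) :
    E1 p (zc M) = ∑ i ∈ M, (1 - p i) := by
  have h : E1 p (zc M) = E1 p (fun x => ∑ i ∈ M, (if x i = true then (0:ℝ) else 1)) := rfl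
  rw [h, E1_sum]
  apply Finset.sum_congr rfl
  intro i _
  have := E1_bit p i (fun b => if b = true then (0:ℝ) else 1)
  simp only [if_true, mul_zero, zero_add] at this
  rw [this]
  simp

/-- the expected positive part of the difference of the numbers of zeros of two samples -/
theorem EP_diff {p : Fin n → ℝ} (hp : Valid p) {a b : Fin lam} (hab : a ≠ b)
    (M : Finset (Fin n)) {i0 : Fin n} (hi0 : i0 ∈ M) :
    p i0 * (1 - p i0) ≤ EP p (fun X => max (zc M (X a) - zc M (X b)) 0) := by
  classical
  set π : Fin n → Equiv.Perm (Fin lam) := fun i => if i = i0 then Equiv.swap a b else 1 with hπ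
  set e : (Fin n → Bool) → ℝ := fun x => if x i0 = true then 0 else 1 with he
  have hzc : ∀ x, zc M x = e x + zc (M.erase i0) x := by
    intro x
    unfold zc
    rw [Finset.add_sum_erase M (fun i => if x i = true then (0:ℝ) else 1) hi0]
  have hA : ∀ X : Fin lam → Fin n → Bool, zc M (permEquiv π X a) = e (X b) + zc (M.erase i0) (X a) := by
    intro X
    rw [hzc]
    congr 1
    · simp [he, permEquiv, hπ]
    · unfold zc
      apply Finset.sum_congr rfl
      intro i hi
      have hne : i ≠ i0 := Finset.ne_of_mem_erase hi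
      simp [permEquiv, hπ, hne]
  have hB : ∀ X : Fin lam → Fin n → Bool, zc M (permEquiv π X b) = e (X a) + zc (M.erase i0) (X b) := by
    intro X
    rw [hzc]
    congr 1
    · simp [he, permEquiv, hπ]
    · unfold zc
      apply Finset.sum_congr rfl
      intro i hi
      have hne : i ≠ i0 := Finset.ne_of_mem_erase hi
      simp [permEquiv, hπ, hne]
  have h1 : EP p (fun X => |zc M (X a) - zc M (X b)|) =
      EP p (fun X => |zc M (permEquiv π X a) - zc M (permEquiv π X b)|) :=
    (EP_perm p π (fun X => |zc M (X a) - zc M (X b)|)).symm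
  have h2 : EP p (fun X => 2 * |e (X a) - e (X b)|) ≤
      EP p (fun X => |zc M (X a) - zc M (X b)|) + EP p (fun X => |zc M (X a) - zc M (X b)|) := by
    conv_rhs => rw [h1]
    conv_rhs => arg 1; rw [← h1]
    rw [← EP_add]
    apply EP_mono hp
    intro X
    rw [hA, hB, hzc, hzc (X b)]
    have := abs_sub (e (X a) + zc (M.erase i0) (X a) - (e (X b) + zc (M.erase i0) (X b)))
      (e (X b) + zc (M.erase i0) (X a) - (e (X a) + zc (M.erase i0) (X b)))
    have h3 : e (X a) + zc (M.erase i0) (X a) - (e (X b) + zc (M.erase i0) (X b)) -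
      (e (X b) + zc (M.erase i0) (X a) - (e (X a) + zc (M.erase i0) (X b))) =
      2 * (e (X a) - e (X b)) := by ring
    rw [h3, abs_mul] at this
    simpa using this
  have h4 : EP p (fun X : Fin lam → Fin n → Bool => |e (X a) - e (X b)|) =
      2 * (p i0 * (1 - p i0)) := by
    have h5 : ∀ X : Fin lam → Fin n → Bool, |e (X a) - e (X b)| =
        e (X a) * (1 - e (X b)) + (1 - e (X a)) * e (X b) := by
      intro X
      simp only [he]
      split_ifs <;> norm_num
    simp only [h5]
    rw [EP_add, EP_two p hab e (fun x => 1 - e x), EP_two p hab (fun x => 1 - e x) e]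
    have h6 := E1_bit p i0 (fun b => if b = true then (0:ℝ) else 1)
    have h7 := E1_bit p i0 (fun b => 1 - if b = true then (0:ℝ) else 1)
    simp only [he]
    rw [h6, h7]
    simp
    ring
  rw [EP_smul, h4] at h2
  have h8 : ∀ X : Fin lam → Fin n → Bool, max (zc M (X a) - zc M (X b)) 0 =
      (1/2) * (|zc M (X a) - zc M (X b)| + (zc M (X a) - zc M (X b))) := by
    intro X
    rcases le_total (zc M (X a) - zc M (X b)) 0 with h | h
    · rw [max_eq_right h, abs_of_nonpos h]; ring
    · rw [max_eq_left h, abs_of_nonneg h]; ring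
  simp only [h8]
  rw [EP_smul, EP_add, EP_sub, EP_single p a (zc M), EP_single p b (zc M)]
  linarith

end Pool.Agent.Helper26.UMDA
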