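import Pool.Agent.Helper26.UMDA.State

/-!
The drift estimates.
-/

namespace Pool.Agent.Helper26.UMDA

open Finset

/-- all requirements on the parameters -/
structure Par (n lam mu J : ℕ) (s A : ℝ) : Prop where
  hn : 4 ≤ n
  hmu : 2 ≤ mu
  hmun : mu ≤ n
  hml : (mu : ℝ) ≤ p0 / 8 * lam
  hs0 : 0 < s
  hs1 : 2 * s ≤ 1
  hsW : 2 * s + 2 * s ^ 2 * ((J : ℝ) / 2 + 1) ≤ p0 / 8
  hA : 3 ≤ A
  hJ : 1 ≤ J
  hzl : ∀ t ≤ J, 1 / (n : ℝ) ≤ zl A t
  hbl : Real.exp (lam - A * mu) ≤ 1 / (n : ℝ) ^ 6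
  hjn : n * Real.exp (-(s / 2 * lam * (J - 1 : ℝ))) ≤ 1 / (n : ℝ) ^ 3
  he1 : Real.exp (-(s / 2 * lam)) ≤ 1 / 8
  he2 : Real.exp (-(s * lam)) ≤ 1 / 12
  he3 : Real.exp (-(s * lam)) ≤ s / 8
  he4 : 2 * (J + 2) * lam * Real.exp (-(s * lam)) ≤ 1 / 8
  he5 : Real.exp (-(s * lam)) / (s * lam) ≤ 1 / (8 * (mu : ℝ) ^ 2)
  he6 : 1 / (n : ℝ) ^ 3 ≤ 1 / (4 * (mu : ℝ) ^ 2)

variable {n lam mu J : ℕ} {s A : ℝ}

theorem Par.npos (h : Par n lam mu J s A) : (0:ℝ) < n := by
  have := h.hn
  have : 0 < n := by omega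
  exact_mod_cast this

theorem Par.mupos (h : Par n lam mu J s A) : 0 < mu := by
  have := h.hmu
  omega

theorem Par.lampos (h : Par n lam mu J s A) : 0 < lam := by
  rcases Nat.eq_zero_or_pos lam with h0 | h0
  · exfalso
    have h1 := h.hml
    have h2 := h.hmu
    have h3 : (2:ℝ) ≤ mu := by exact_mod_cast h2
    rw [h0] at h1
    simp at h1
    linarith
  · exact h0

theorem clip_ge {n : ℕ} {q : ℝ} (hq : q ≤ 1) : q - 1 / n ≤ clip n q := by
  unfold clip
  have : (0:ℝ) ≤ 1 / n := by positivity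
  refine le_trans ?_ (le_max_right _ _)
  apply le_min <;> linarith

theorem fr_valid (hn : 1 ≤ n) (mu : ℕ) (k : Fin n → ℕ) : Valid (fr mu k) := by
  intro i
  unfold fr clip
  have h1 : (0:ℝ) ≤ 1 / n := by positivity
  have h2 : (1:ℝ) / n ≤ 1 := by
    rw [div_le_one (by exact_mod_cast hn)]
    exact_mod_cast hn
  constructor
  · exact le_trans h1 (le_max_left _ _)
  · apply max_le h2
    exact (min_le_left _ _).trans (by linarith)

theorem Par.valid (h : Par n lam mu J s A) (k : Fin n → ℕ) : Valid (fr mu k) :=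
  fr_valid (by have := h.hn; omega) mu k

theorem div_mu_le {k : Fin n → ℕ} (hk : ∀ i, k i ≤ mu) (i : Fin n) : (k i : ℝ) / mu ≤ 1 := by
  have h1 : (k i : ℝ) ≤ mu := by exact_mod_cast hk i
  exact div_le_one_of_le₀ h1 (Nat.cast_nonneg _)

theorem one_sub_fr_le {k : Fin n → ℕ} (hk : ∀ i, k i ≤ mu) (i : Fin n) :
    1 - fr mu k i ≤ zt mu k i + 1 / n := by
  have := clip_ge (n := n) (div_mu_le hk i)
  unfold fr zt
  linarith

theorem one_sub_fr_le_max (k : Fin n → ℕ) (i : Fin n) :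
    1 - fr mu k i ≤ max (1 / (n:ℝ)) (zt mu k i) := by
  unfold fr zt clip
  rcases le_total ((k i : ℝ) / mu) (1 - 1 / n) with h | h
  · rw [min_eq_right h]
    refine le_trans ?_ (le_max_right _ _)
    have := le_max_right (1 / (n:ℝ)) ((k i : ℝ) / mu)
    linarith
  · rw [min_eq_left h]
    refine le_trans ?_ (le_max_left _ _)
    have := le_max_right (1 / (n:ℝ)) (1 - 1 / (n:ℝ))
    linarith

theorem inv_n_le (hn : 4 ≤ n) : (1:ℝ) / n ≤ 1 / 4 := by
  apply one_div_le_one_div_of_le (by norm_num)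
  exact_mod_cast hn

theorem fr_zero (hn : 4 ≤ n) {k : Fin n → ℕ} {i : Fin n} (h : k i = 0) :
    fr mu k i = 1 / n := by
  unfold fr clip
  rw [h]
  have h1 := inv_n_le hn
  have h2 : (0:ℝ) ≤ 1 / n := by positivity
  simp only [Nat.cast_zero, zero_div]
  rw [min_eq_right (by linarith), max_eq_left h2]

theorem fr_mu (hn : 4 ≤ n) (hmu : 0 < mu) {k : Fin n → ℕ} {i : Fin n} (h : k i = mu) :
    fr mu k i = 1 - 1 / n := by
  unfold fr clip
  rw [h, div_self (by positivity)]
  have h1 := inv_n_le hn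
  have h2 : (0:ℝ) ≤ 1 / n := by positivity
  rw [min_eq_left (by linarith), max_eq_right (by linarith)]

theorem inv_n_le_inv_mu (hmu : 0 < mu) (hmn : mu ≤ n) : (1:ℝ) / n ≤ 1 / mu := by
  apply one_div_le_one_div_of_le (by exact_mod_cast hmu)
  exact_mod_cast hmn

theorem div_mu_le' {k : Fin n → ℕ} {i : Fin n} (hmu : 0 < mu) (h : k i < mu) :
    (k i : ℝ) / mu ≤ 1 - 1 / mu := by
  have h1 : (0:ℝ) < mu := by exact_mod_cast hmu
  have h2 : (k i : ℝ) + 1 ≤ mu := by exact_mod_cast h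
  rw [div_le_iff₀ h1]
  field_simp
  linarith

theorem one_sub_fr_le' (hmu : 0 < mu) (hmn : mu ≤ n) {k : Fin n → ℕ} {i : Fin n}
    (h : k i < mu) : 1 - fr mu k i ≤ zt mu k i := by
  unfold fr zt clip
  have h1 := inv_n_le_inv_mu hmu hmn
  have h2 := div_mu_le' hmu h
  rw [min_eq_right (by linarith)]
  have := le_max_right (1 / (n:ℝ)) ((k i : ℝ) / mu)
  linarith

theorem fr_mid (hmu : 0 < mu) (hmn : mu ≤ n) {k : Fin n → ℕ} {i : Fin n}
    (h : k i < mu) (h' : 0 < k i) : fr mu k i = (k i : ℝ) / mu := by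
  unfold fr clip
  have h1 := inv_n_le_inv_mu hmu hmn
  have h2 := div_mu_le' hmu h
  have h3 : (1:ℝ) / mu ≤ (k i : ℝ) / mu := by
    apply div_le_div_of_nonneg_right _ (by positivity)
    exact_mod_cast h'
  rw [min_eq_right (by linarith), max_eq_right (by linarith)]

/-- variance of a bit away from the borders -/
theorem fr_var (hmu : 2 ≤ mu) (hmn : mu ≤ n) {k : Fin n → ℕ} {i : Fin n}
    (h : k i < mu) (h' : 0 < k i) : 1 / (2 * (mu:ℝ)) ≤ fr mu k i * (1 - fr mu k i) := by
  have hmu0 : 0 < mu := by omega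
  rw [fr_mid hmu0 hmn h h']
  have h2 := div_mu_le' hmu0 h
  have h3 : (1:ℝ) / mu ≤ (k i : ℝ) / mu := by
    apply div_le_div_of_nonneg_right _ (by positivity)
    exact_mod_cast h'
  have h4 : (1:ℝ) / mu ≤ 1 / 2 := by
    apply one_div_le_one_div_of_le (by norm_num)
    exact_mod_cast hmu
  have h5 : (1:ℝ) / (2 * mu) = (1 / mu) / 2 := by field_simp
  rw [h5]
  have h6 : (0:ℝ) ≤ 1 / mu := by positivity
  have h7 : 0 ≤ ((k i : ℝ) / mu - 1 / mu) * (1 - 1 / mu - (k i : ℝ) / mu) :=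
    mul_nonneg (by linarith) (by linarith)
  nlinarith

/-- a wrong bit is sampled correctly -/
def Flip (R : Finset (Fin n)) (X : Fin lam → Fin n → Bool) : Prop := ∃ j, ∃ i ∈ R, X j i = true

open Classical in
theorem prob_flip (h : Par n lam mu J s A) (k : Fin n → ℕ) :
    EP (fr mu k) (fun X : Fin lam → Fin n → Bool => if Flip (Rs k) X then (1:ℝ) else 0) ≤
      lam * (Rs k).card / n := by
  have hp := h.valid k
  have h1 : ∀ X : Fin lam → Fin n → Bool, (if Flip (Rs k) X then (1:ℝ) else 0) ≤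
      ∑ j, ∑ i ∈ Rs k, (if X j i = true then (1:ℝ) else 0) := by
    intro X
    have hnn : ∀ j, 0 ≤ ∑ i ∈ Rs k, (if X j i = true then (1:ℝ) else 0) := by
      intro j
      apply Finset.sum_nonneg
      intro i _
      split_ifs <;> norm_num
    split_ifs with hf
    · obtain ⟨j, i, hi, hji⟩ := hf
      calc (1:ℝ) = (if X j i = true then (1:ℝ) else 0) := by simp [hji]
        _ ≤ ∑ i ∈ Rs k, (if X j i = true then (1:ℝ) else 0) :=
          Finset.single_le_sum (f := fun i => if X j i = true then (1:ℝ) else 0)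
            (fun i _ => by split_ifs <;> norm_num) hi
        _ ≤ _ := Finset.single_le_sum (f := fun j => ∑ i ∈ Rs k, (if X j i = true then (1:ℝ) else 0))
            (fun j _ => hnn j) (Finset.mem_univ j)
    · exact Finset.sum_nonneg fun j _ => hnn j
  refine (EP_mono hp h1).trans ?_
  rw [EP_sum]
  have h2 : ∀ j : Fin lam, EP (fr mu k) (fun X : Fin lam → Fin n → Bool =>
      ∑ i ∈ Rs k, (if X j i = true then (1:ℝ) else 0)) = (Rs k).card / n := by
    intro j
    rw [EP_sum]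
    rw [Finset.sum_congr rfl (g := fun _ => (1:ℝ) / n)]
    · simp; ring
    · intro i hi
      rw [EP_single (fr mu k) j (fun x => if x i = true then (1:ℝ) else 0),
        E1_bit (fr mu k) i (fun b => if b = true then (1:ℝ) else 0)]
      rw [mem_Rs] at hi
      rw [fr_zero h.hn hi]
      simp
  simp only [h2]
  simp
  apply le_of_eq
  ring

/-- number of zeros of a column -/
def cz (X : Fin lam → Fin n → Bool) (i : Fin n) : ℝ := ∑ j, (if X j i = true then (0:ℝ) else 1)

theorem EP_exp_cz (p : Fin n → ℝ) (θ : ℝ) (i : Fin n) :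
    EP p (fun X : Fin lam → Fin n → Bool => Real.exp (θ * cz X i)) =
      (p i + (1 - p i) * Real.exp θ) ^ lam := by
  have h1 : ∀ X : Fin lam → Fin n → Bool, Real.exp (θ * cz X i) =
      ∏ j, (if X j i = true then 1 else Real.exp θ) := by
    intro X
    unfold cz
    rw [Finset.mul_sum, Real.exp_sum]
    apply Finset.prod_congr rfl
    intro j _
    split_ifs <;> simp
  simp only [h1]
  rw [EP_prod p (fun _ x => if x i = true then 1 else Real.exp θ)]
  rw [E1_bit p i (fun b => if b = true then 1 else Real.exp θ)]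
  simp

/-- the event that some position climbs more than one level -/
def BadLevel (mu : ℕ) (A : ℝ) (t : ℕ) (k : Fin n → ℕ) (X : Fin lam → Fin n → Bool) : Prop :=
  ∃ i, k i ≠ 0 ∧ mu * zl A t ≤ cz X i

open Classical in
theorem prob_bad (h : Par n lam mu J s A) {k : Fin n → ℕ} {t : ℕ} (ht : t + 1 ≤ J)
    (hlev : ∀ i, k i ≠ 0 → zt mu k i ≤ zl A (t + 1)) :
    EP (fr mu k) (fun X : Fin lam → Fin n → Bool => if BadLevel mu A t k X then (1:ℝ) else 0) ≤
      1 / (n:ℝ) ^ 5 := by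
  have hp := h.valid k
  have hz := zl_pos A t
  set θ := A / zl A t with hθ
  have hθ0 : 0 ≤ θ := div_nonneg (by linarith [h.hA]) hz.le
  have h1 : ∀ X : Fin lam → Fin n → Bool, (if BadLevel mu A t k X then (1:ℝ) else 0) ≤
      ∑ i ∈ (Rs k)ᶜ, Real.exp (-(A * mu)) * Real.exp (θ * cz X i) := by
    intro X
    split_ifs with hf
    · obtain ⟨i, hi, hji⟩ := hf
      have hi' : i ∈ (Rs k)ᶜ := by
        rw [Finset.mem_compl, mem_Rs]; exact hi
      calc (1:ℝ) ≤ Real.exp (-(A * mu)) * Real.exp (θ * cz X i) := by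
            rw [← Real.exp_add]
            apply Real.one_le_exp
            have h2 : θ * (mu * zl A t) ≤ θ * cz X i := mul_le_mul_of_nonneg_left hji hθ0
            have h3 : θ * (mu * zl A t) = A * mu := by
              rw [hθ]; field_simp
            linarith
        _ ≤ _ := Finset.single_le_sum
            (f := fun i => Real.exp (-(A * mu)) * Real.exp (θ * cz X i))
            (fun i _ => by positivity) hi'
    · positivity
  refine (EP_mono hp h1).trans ?_
  rw [EP_sum]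
  have h2 : ∀ i ∈ (Rs k)ᶜ, EP (fr mu k) (fun X : Fin lam → Fin n → Bool =>
      Real.exp (-(A * mu)) * Real.exp (θ * cz X i)) ≤ 1 / (n:ℝ) ^ 6 := by
    intro i hi
    rw [Finset.mem_compl, mem_Rs] at hi
    rw [EP_smul, EP_exp_cz]
    refine le_trans ?_ h.hbl
    have h3 : fr mu k i + (1 - fr mu k i) * Real.exp θ ≤ Real.exp 1 := by
      have h4 : 1 - fr mu k i ≤ zl A (t + 1) := by
        refine (one_sub_fr_le_max k i).trans ?_
        exact max_le (h.hzl _ ht) (hlev i hi)
      have h5 : zl A (t + 1) * Real.exp θ = 1 := by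
        simp only [zl]
        rw [← Real.exp_add, hθ]
        simp
      have h6 : (1 - fr mu k i) * Real.exp θ ≤ 1 :=
        (mul_le_mul_of_nonneg_right h4 (Real.exp_pos _).le).trans h5.le
      have h7 := (hp i).2
      have := Real.add_one_le_exp (1:ℝ)
      linarith
    have h8 : 0 ≤ fr mu k i + (1 - fr mu k i) * Real.exp θ := by
      have h7 := hp i
      have := (Real.exp_pos θ).le
      have : 0 ≤ (1 - fr mu k i) * Real.exp θ := mul_nonneg (by linarith) this
      linarith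
    calc Real.exp (-(A * mu)) * (fr mu k i + (1 - fr mu k i) * Real.exp θ) ^ lam ≤
          Real.exp (-(A * mu)) * (Real.exp 1) ^ lam :=
          mul_le_mul_of_nonneg_left (pow_le_pow_left₀ h8 h3 _) (Real.exp_pos _).le
      _ = Real.exp (lam - A * mu) := by
          rw [← Real.exp_nat_mul, ← Real.exp_add]
          congr 1
          ring
  refine (Finset.sum_le_sum h2).trans ?_
  rw [Finset.sum_const, nsmul_eq_mul]
  have h3 : (((Rs k)ᶜ).card : ℝ) ≤ n := by
    have := Finset.card_le_univ ((Rs k)ᶜ)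
    rw [Fintype.card_fin] at this
    exact_mod_cast this
  have hn := h.npos
  calc ((Rs k)ᶜ.card : ℝ) * (1 / (n:ℝ) ^ 6) ≤ n * (1 / (n:ℝ) ^ 6) :=
        mul_le_mul_of_nonneg_right h3 (by positivity)
    _ = _ := by field_simp

/-- the exponential moment estimate in a convenient form -/
theorem avg_tail (h : Par n lam mu J s A) {p : Fin n → ℝ} (hp : Valid p) (M : Finset (Fin n))
    (hM : ∀ i ∈ M, 1 - p i ≤ 1 / 4) (hm : ∑ i ∈ M, (1 - p i) ≤ 1) :
    EP p (fun X : Fin lam → Fin n → Bool => Real.exp (s * ∑ j, zc M (X j)) *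
      (if (good M 0 X).card ≤ mu then (1:ℝ) else 0)) ≤ Real.exp (-(s * lam)) := by
  have h1 := exp_tail (lam := lam) (v := 0) hp M hM (by linarith) mu h.hml h.hs0 h.hs1 (by
    have := h.hsW
    have h2 : 0 ≤ s ^ 2 * ((J:ℝ) / 2) := by positivity
    nlinarith)
  have h2 : max 0 ((0:ℝ) - 1) = 0 := by norm_num
  rw [h2] at h1
  have h3 : s * lam * ((0:ℝ) - 1) = -(s * lam) := by ring
  rw [h3] at h1
  exact h1

theorem prob_few (h : Par n lam mu J s A) {p : Fin n → ℝ} (hp : Valid p) (M : Finset (Fin n))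
    (hM : ∀ i ∈ M, 1 - p i ≤ 1 / 4) (hm : ∑ i ∈ M, (1 - p i) ≤ 1) :
    EP p (fun X : Fin lam → Fin n → Bool =>
      (if (good M 0 X).card ≤ mu then (1:ℝ) else 0)) ≤ Real.exp (-(s * lam)) := by
  refine (EP_mono hp ?_).trans (avg_tail h hp M hM hm)
  intro X
  have h1 : 1 ≤ Real.exp (s * ∑ j, zc M (X j)) := by
    apply Real.one_le_exp
    apply mul_nonneg h.hs0.le
    exact Finset.sum_nonneg fun j _ => zc_nonneg M _
  split_ifs with hg
  · linarith
  · simp

theorem avg_few (h : Par n lam mu J s A) {p : Fin n → ℝ} (hp : Valid p) (M : Finset (Fin n))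
    (hM : ∀ i ∈ M, 1 - p i ≤ 1 / 4) (hm : ∑ i ∈ M, (1 - p i) ≤ 1) :
    EP p (fun X : Fin lam → Fin n → Bool =>
      (if (good M 0 X).card ≤ mu then (1:ℝ) else 0) * ((1 / lam) * ∑ j, zc M (X j))) ≤
      Real.exp (-(s * lam)) / (s * lam) := by
  have hl : (0:ℝ) < lam := by exact_mod_cast h.lampos
  have hs := h.hs0
  have h1 := avg_tail h hp M hM hm
  have h2 : ∀ X : Fin lam → Fin n → Bool,
      (if (good M 0 X).card ≤ mu then (1:ℝ) else 0) * ((1 / lam) * ∑ j, zc M (X j)) ≤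
      (1 / (s * lam)) * (Real.exp (s * ∑ j, zc M (X j)) *
      (if (good M 0 X).card ≤ mu then (1:ℝ) else 0)) := by
    intro X
    split_ifs with hg
    · have h3 := Real.add_one_le_exp (s * ∑ j, zc M (X j))
      have h4 : s * ∑ j, zc M (X j) ≤ Real.exp (s * ∑ j, zc M (X j)) := by linarith
      have h5 : (1 / (s * lam)) * (s * ∑ j, zc M (X j)) = (1 / lam) * ∑ j, zc M (X j) := by
        field_simp
      have h6 : (1 / (s * lam)) * (s * ∑ j, zc M (X j)) ≤
        (1 / (s * lam)) * Real.exp (s * ∑ j, zc M (X j)) :=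
        mul_le_mul_of_nonneg_left h4 (by positivity)
      linarith
    · simp
  refine (EP_mono hp h2).trans ?_
  rw [EP_smul]
  calc (1 / (s * lam)) * _ ≤ (1 / (s * lam)) * Real.exp (-(s * lam)) :=
        mul_le_mul_of_nonneg_left h1 (by positivity)
    _ = _ := by ring

end Pool.Agent.Helper26.UMDA
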