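import Pool.Agent.Helper26.UMDA.DriftZ

/-!
Drift of the potential during an excursion from the borders.
-/

namespace Pool.Agent.Helper26.UMDA

open Finset

variable {n lam mu J : ℕ} {s A : ℝ}

theorem mean_le (h : Par n lam mu J s A) {k : Fin n → ℕ} (hk : ∀ i, k i ≤ mu) :
    ∑ i ∈ (Rs k)ᶜ, (1 - fr mu k i) ≤ wt mu k + 1 := by
  have h1 : ∑ i ∈ (Rs k)ᶜ, (1 - fr mu k i) ≤ ∑ i ∈ (Rs k)ᶜ, (zt mu k i + 1 / n) :=
    Finset.sum_le_sum fun i _ => one_sub_fr_le hk i
  refine h1.trans ?_
  rw [Finset.sum_add_distrib]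
  have h3 : (((Rs k)ᶜ).card : ℝ) ≤ n := by
    have := Finset.card_le_univ ((Rs k)ᶜ)
    rw [Fintype.card_fin] at this
    exact_mod_cast this
  have h4 : ∑ _i ∈ (Rs k)ᶜ, (1:ℝ) / n ≤ 1 := by
    rw [Finset.sum_const, nsmul_eq_mul, mul_one_div, div_le_one h.npos]
    exact h3
  unfold wt
  linarith

theorem quarter (h : Par n lam mu J s A) {k : Fin n → ℕ}
    (hl : 1 ≤ lvl A J mu k) : ∀ i ∈ (Rs k)ᶜ, 1 - fr mu k i ≤ 1 / 4 := by
  intro i hi
  rw [Finset.mem_compl, mem_Rs] at hi
  refine (one_sub_fr_le_max k i).trans ?_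
  exact max_le (inv_n_le h.hn) ((lvl_spec A J mu k i hi).trans (zl_le_quarter h.hA hl))

/-- exponential of the new excursion mass -/
noncomputable def Yf (s : ℝ) (mu : ℕ) (L : ℝ) (T : Finset (Fin lam))
    (X : Fin lam → Fin n → Bool) : ℝ :=
  if 0 < Zt mu (cnt T X) - L then Real.exp (s * lam * (Zt mu (cnt T X) - L)) else 0

theorem Yf_nonneg (s : ℝ) (mu : ℕ) (L : ℝ) (T : Finset (Fin lam))
    (X : Fin lam → Fin n → Bool) : 0 ≤ Yf s mu L T X := by
  unfold Yf
  split_ifs
  · exact (Real.exp_pos _).le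
  · exact le_rfl

theorem Zt_cnt_le_L_avg {mu : ℕ} (hmu : 0 < mu) (hlam : 0 < lam) {T : Finset (Fin lam)}
    {X : Fin lam → Fin n → Bool} (hT : IsBest mu X T) (R : Finset (Fin n)) :
    Zt mu (cnt T X) ≤ R.card + (1 / lam) * ∑ j, zc Rᶜ (X j) := by
  refine (Zt_cnt_le_avg hmu hlam hT).trans ?_
  simp_rw [zc_split R]
  rw [Finset.sum_add_distrib, mul_add]
  have h1 : ∑ j, zc R (X j) ≤ lam * R.card := by
    calc ∑ j, zc R (X j) ≤ ∑ _j : Fin lam, (R.card : ℝ) :=
          Finset.sum_le_sum fun j _ => zc_le_card R _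
      _ = _ := by simp
  have hl : (0:ℝ) < lam := by exact_mod_cast hlam
  have h2 : (1 / (lam:ℝ)) * ∑ j, zc R (X j) ≤ R.card := by
    calc (1 / (lam:ℝ)) * ∑ j, zc R (X j) ≤ (1 / (lam:ℝ)) * (lam * R.card) :=
          mul_le_mul_of_nonneg_left h1 (by positivity)
      _ = _ := by field_simp
  linarith

theorem EP_Yf (h : Par n lam mu J s A) {k : Fin n → ℕ} (hk : ∀ i, k i ≤ mu)
    (hl : 1 ≤ lvl A J mu k) (hw : wt mu k ≤ J / 2)
    (T : (Fin lam → Fin n → Bool) → Finset (Fin lam)) (hT : ∀ X, IsBest mu X (T X)) :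
    EP (fr mu k) (fun X => Yf s mu (Rs k).card (T X) X) ≤
      2 * Real.exp (s * lam * (wt mu k - 1)) := by
  have hp := h.valid k
  have hmu := h.mupos
  have hmu' : (0:ℝ) < mu := by exact_mod_cast hmu
  have hlam := h.lampos
  have hlam' : (0:ℝ) < lam := by exact_mod_cast hlam
  have hs := h.hs0
  set M := (Rs k)ᶜ with hM
  set w := wt mu k with hwdef
  have hW : 2 * s + 2 * s ^ 2 * (w + 1) ≤ p0 / 8 := by
    have h1 := h.hsW
    have h2 : 2 * s ^ 2 * (w + 1) ≤ 2 * s ^ 2 * ((J:ℝ) / 2 + 1) :=
      mul_le_mul_of_nonneg_left (by linarith) (by positivity)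
    linarith
  have h1 := exp_tail (lam := lam) hp M (quarter h hl) (mean_le h hk) mu h.hml h.hs0 h.hs1 hW
  have h2 : ∀ X : Fin lam → Fin n → Bool, Yf s mu (Rs k).card (T X) X ≤
      Real.exp (s * lam * (w - 1)) + Real.exp (s * ∑ j, zc M (X j)) *
      (if (good M (max 0 (w - 1)) X).card ≤ mu then (1:ℝ) else 0) := by
    intro X
    by_cases hG : (good M (max 0 (w - 1)) X).card ≤ mu
    · rw [if_pos hG, mul_one]
      have h3 : Yf s mu (Rs k).card (T X) X ≤ Real.exp (s * ∑ j, zc M (X j)) := by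
        unfold Yf
        split_ifs with hpos
        · apply Real.exp_le_exp.mpr
          have h4 := Zt_cnt_le_L_avg hmu hlam (hT X) (Rs k)
          have h5 : s * lam * (Zt mu (cnt (T X) X) - (Rs k).card) ≤
              s * lam * ((1 / lam) * ∑ j, zc M (X j)) :=
            mul_le_mul_of_nonneg_left (by linarith) (by positivity)
          refine h5.trans (le_of_eq ?_)
          field_simp
        · exact (Real.exp_pos _).le
      have := (Real.exp_pos (s * lam * (w - 1))).le
      linarith
    · rw [if_neg hG, mul_zero, add_zero]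
      push Not at hG
      obtain ⟨T', hT', hc⟩ := Finset.exists_subset_card_eq hG.le
      have h3 : Zt mu (cnt (T X) X) ≤ (Rs k).card + max 0 (w - 1) := by
        refine (Zt_cnt_le_of_card hmu (hT X) hc).trans ?_
        have h4 : ∑ j ∈ T', zc Finset.univ (X j) ≤
            ∑ _j ∈ T', (((Rs k).card : ℝ) + max 0 (w - 1)) := by
          apply Finset.sum_le_sum
          intro j hj
          rw [zc_split (Rs k)]
          have h5 := hT' hj
          unfold good at h5
          rw [Finset.mem_filter] at h5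
          have := zc_le_card (Rs k) (X j)
          have := h5.2
          rw [← hM]
          linarith
        rw [Finset.sum_const, hc, nsmul_eq_mul] at h4
        calc (1 / (mu:ℝ)) * ∑ j ∈ T', zc Finset.univ (X j) ≤
              (1 / (mu:ℝ)) * (mu * (((Rs k).card : ℝ) + max 0 (w - 1))) :=
              mul_le_mul_of_nonneg_left h4 (by positivity)
          _ = _ := by field_simp
      unfold Yf
      split_ifs with hpos
      · apply Real.exp_le_exp.mpr
        apply mul_le_mul_of_nonneg_left _ (by positivity)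
        have h4 : 0 < max 0 (w - 1) := by linarith
        have h5 : max 0 (w - 1) = w - 1 := by
          rcases max_choice 0 (w - 1) with h6 | h6
          · rw [h6] at h4
            exact absurd h4 (lt_irrefl _)
          · exact h6
        rw [h5] at h3
        linarith
      · exact (Real.exp_pos _).le
  refine (EP_mono hp h2).trans ?_
  rw [EP_add, EP_const]
  linarith

/-- the pointwise bound without flips of wrong bits and without level jumps -/
theorem Phi_point (h : Par n lam mu J s A) {k : Fin n → ℕ}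
    {t : ℕ} (ht : t ≤ J) {X : Fin lam → Fin n → Bool}
    {T : Finset (Fin lam)} (hT : IsBest mu X T) (hF : ¬ Flip (Rs k) X)
    (hB : ¬ BadLevel mu A t k X) :
    Phi lam s A J mu (cnt T X) ≤ (Rs k).card +
      (n * Real.exp (-(s / 2 * lam * t)) + bet J n lam (Rs k).card) *
      Yf s mu (Rs k).card T X := by
  have hmu := h.mupos
  have hmu' : (0:ℝ) < mu := by exact_mod_cast hmu
  have hs := h.hs0
  have hzt : ∀ i, k i ≠ 0 → zt mu (cnt T X) i < zl A t := by
    intro i hi
    rw [zt_cnt hmu hT.1]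
    have h1 : cz X i < mu * zl A t := by
      by_contra hcon
      exact hB ⟨i, hi, not_lt.mp hcon⟩
    have h2 : ∑ j ∈ T, (if X j i = true then (0:ℝ) else 1) ≤ cz X i := by
      unfold cz
      apply Finset.sum_le_sum_of_subset_of_nonneg (Finset.subset_univ T)
      intro j _ _
      split_ifs <;> norm_num
    calc (1 / (mu:ℝ)) * ∑ j ∈ T, (if X j i = true then (0:ℝ) else 1) ≤ (1 / mu) * cz X i :=
          mul_le_mul_of_nonneg_left h2 (by positivity)
      _ < (1 / mu) * (mu * zl A t) := mul_lt_mul_of_pos_left h1 (by positivity)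
      _ = zl A t := by field_simp
  have hR : Rs (cnt T X) = Rs k := by
    ext i
    rw [mem_Rs, mem_Rs]
    constructor
    · intro h1
      by_contra h2
      have h3 := hzt i h2
      have h4 := zl_le_one (by linarith [h.hA] : 0 ≤ A) t
      unfold zt at h3
      rw [h1] at h3
      simp at h3
      linarith
    · intro h1
      unfold cnt
      rw [Finset.card_eq_zero, Finset.filter_eq_empty_iff]
      intro j _ hj
      exact hF ⟨j, i, mem_Rs.mpr h1, hj⟩
  have hlv : t ≤ lvl A J mu (cnt T X) := by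
    apply le_lvl ht
    intro i hi
    apply (hzt i _).le
    intro h1
    have h2 : i ∈ Rs (cnt T X) := by rw [hR]; exact mem_Rs.mpr h1
    exact hi (mem_Rs.mp h2)
  have hcoef : 0 ≤ n * Real.exp (-(s / 2 * lam * t)) + bet J n lam (Rs k).card :=
    add_nonneg (by positivity) (bet_nonneg _ _ _ (Nat.cast_nonneg _))
  unfold Phi
  split_ifs with hbor
  · rw [hR]
    have := mul_nonneg hcoef (Yf_nonneg s mu (Rs k).card T X)
    linarith
  · refine (min_le_right _ _).trans ?_
    rw [hR]
    have hw : wt mu (cnt T X) = Zt mu (cnt T X) - (Rs k).card := by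
      rw [Zt_eq, hR]; ring
    have hpos : 0 < Zt mu (cnt T X) - (Rs k).card := by
      rw [← hw]
      unfold Border at hbor
      push Not at hbor
      obtain ⟨i, hi0, himu⟩ := hbor
      have hle := cnt_le hT.1 X
      unfold wt
      apply Finset.sum_pos' (fun i _ => zt_nonneg hle i)
      refine ⟨i, by rw [Finset.mem_compl, mem_Rs]; exact hi0, ?_⟩
      unfold zt
      have h1 : cnt T X i < mu := lt_of_le_of_ne (hle i) himu
      have h2 : (cnt T X i : ℝ) < mu := by exact_mod_cast h1
      have h3 : (cnt T X i : ℝ) / mu < 1 := by rw [div_lt_one hmu']; exact h2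
      linarith
    unfold Psi Yf
    rw [if_pos hpos, hw, hR]
    have h4 : Real.exp (-(s / 2 * lam * lvl A J mu (cnt T X))) ≤
        Real.exp (-(s / 2 * lam * t)) := by
      apply Real.exp_le_exp.mpr
      have h5 : (t:ℝ) ≤ lvl A J mu (cnt T X) := by exact_mod_cast hlv
      have h6 : s / 2 * lam * t ≤ s / 2 * lam * lvl A J mu (cnt T X) :=
        mul_le_mul_of_nonneg_left h5 (by positivity)
      linarith
    have h7 : (n:ℝ) * Real.exp (-(s / 2 * lam * lvl A J mu (cnt T X))) ≤
        n * Real.exp (-(s / 2 * lam * t)) := mul_le_mul_of_nonneg_left h4 (Nat.cast_nonneg _)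
    have h8 := mul_le_mul_of_nonneg_right h7
      (Real.exp_pos (s * lam * (Zt mu (cnt T X) - (Rs k).card))).le
    linarith

open Classical in
theorem EP_flip_avg (h : Par n lam mu J s A) {k : Fin n → ℕ} (f : (Fin lam → Fin n → Bool) → ℝ)
    (hf : ∀ X Y : Fin lam → Fin n → Bool, (∀ j, ∀ i, i ∉ Rs k → X j i = Y j i) → f X = f Y)
    (hf0 : ∀ X, 0 ≤ f X) {C : ℝ} (hC : EP (fr mu k) f ≤ C) :
    EP (fr mu k) (fun X : Fin lam → Fin n → Bool =>
      (if Flip (Rs k) X then (1:ℝ) else 0) * f X) ≤ lam * (Rs k).card / n * C := by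
  have hp := h.valid k
  rw [EP_indep (fr mu k) (Rs k) (fun X : Fin lam → Fin n → Bool =>
      (if Flip (Rs k) X then (1:ℝ) else 0)) f _ hf]
  · have h1 := prob_flip h k
    have h2 : EP (fr mu k) (fun X : Fin lam → Fin n → Bool =>
        if Flip (Rs k) X then (1:ℝ) else 0) ≤ lam * (Rs k).card / n := by
      exact h1
    apply mul_le_mul h2 hC (EP_nonneg hp hf0)
    positivity
  · intro X Y hXY
    have : Flip (Rs k) X ↔ Flip (Rs k) Y := by
      unfold Flip
      constructor
      · rintro ⟨j, i, hi, hji⟩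
        exact ⟨j, i, hi, by rw [← hXY j i hi]; exact hji⟩
      · rintro ⟨j, i, hi, hji⟩
        exact ⟨j, i, hi, by rw [hXY j i hi]; exact hji⟩
    simp only [this]

theorem drift_B (h : Par n lam mu J s A) {k : Fin n → ℕ} (hk : ∀ i, k i ≤ mu)
    (hlt : ((Rs k).card : ℝ) + Psi lam s A J mu k < Zt mu k)
    (T : (Fin lam → Fin n → Bool) → Finset (Fin lam)) (hT : ∀ X, IsBest mu X (T X)) :
    EP (fr mu k) (fun X => Phi lam s A J mu (cnt (T X) X)) ≤
      ((Rs k).card : ℝ) + Psi lam s A J mu k - 1 / (n:ℝ) ^ 3 := by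
  classical
  have hp := h.valid k
  have hmu := h.mupos
  have hmu' : (0:ℝ) < mu := by exact_mod_cast hmu
  have hlam := h.lampos
  have hlam' : (0:ℝ) < lam := by exact_mod_cast hlam
  have hs := h.hs0
  have hn := h.npos
  set L : ℝ := ((Rs k).card : ℝ) with hL
  set w := wt mu k with hw
  set l := lvl A J mu k with hl
  have hL0 : 0 ≤ L := Nat.cast_nonneg _
  have hZ : Zt mu k = L + w := Zt_eq mu k
  have hw0 : 0 ≤ w := wt_nonneg hk
  have hwn : w ≤ n := by
    have := Zt_le mu k
    linarith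
  have hbet : 0 ≤ bet J n lam L := bet_nonneg _ _ _ hL0
  have hPsi : Psi lam s A J mu k = (n * Real.exp (-(s / 2 * lam * l)) + bet J n lam L) *
    Real.exp (s * lam * w) := rfl
  -- smallness
  have hsmall : n * Real.exp (s * lam * w - s / 2 * lam * l) < n := by
    have h1 : n * Real.exp (s * lam * w - s / 2 * lam * l) ≤ Psi lam s A J mu k := by
      have h2 : s * lam * w - s / 2 * lam * l = -(s / 2 * lam * l) + s * lam * w := by ring
      rw [hPsi, add_mul, h2, Real.exp_add]
      have := mul_nonneg hbet (Real.exp_pos (s * lam * w)).le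
      linarith
    linarith
  have hneg : s * lam * w - s / 2 * lam * l < 0 := by
    have h1 : Real.exp (s * lam * w - s / 2 * lam * l) < 1 := by
      by_contra hcon
      push Not at hcon
      have := mul_le_mul_of_nonneg_left hcon hn.le
      linarith
    exact Real.exp_lt_one_iff.mp h1
  have hwl : w < l / 2 := by
    have h1 : s * lam * (w - l / 2) < 0 := by
      have : s * lam * (w - l / 2) = s * lam * w - s / 2 * lam * l := by ring
      rw [this]; exact hneg
    have h2 : 0 < s * lam := by positivity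
    by_contra hcon
    push Not at hcon
    have := mul_nonneg h2.le (sub_nonneg.mpr hcon)
    linarith
  have hl1 : 1 ≤ l := by
    rcases Nat.eq_zero_or_pos l with h0 | h0
    · rw [h0] at hwl
      simp at hwl
      linarith
    · exact h0
  have hlJ : l ≤ J := lvl_le _ _ _ _
  have hlJ' : (l:ℝ) ≤ J := by exact_mod_cast hlJ
  have hwJ : w ≤ J / 2 := by linarith
  obtain ⟨t, ht⟩ : ∃ t, l = t + 1 := ⟨l - 1, by omega⟩
  have htJ : t + 1 ≤ J := by omega
  have hlev : ∀ i, k i ≠ 0 → zt mu k i ≤ zl A (t + 1) := by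
    rw [← ht]
    exact lvl_spec A J mu k
  set Q : ℝ := n * Real.exp (-(s / 2 * lam * t)) + bet J n lam L with hQ
  have hQ0 : 0 ≤ Q := add_nonneg (by positivity) hbet
  have hpoint : ∀ X : Fin lam → Fin n → Bool, Phi lam s A J mu (cnt (T X) X) ≤
      ((L + (if Flip (Rs k) X then (1:ℝ) else 0) * ((1 / lam) * ∑ j, zc (Rs k)ᶜ (X j))) +
      n * (if BadLevel mu A t k X then (1:ℝ) else 0)) + Q * Yf s mu L (T X) X := by
    intro X
    have hle := cnt_le (hT X).1 X
    have hY := mul_nonneg hQ0 (Yf_nonneg s mu L (T X) X)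
    have havg : 0 ≤ (1 / (lam:ℝ)) * ∑ j, zc (Rs k)ᶜ (X j) :=
      mul_nonneg (by positivity) (Finset.sum_nonneg fun j _ => zc_nonneg _ _)
    by_cases hF : Flip (Rs k) X
    · rw [if_pos hF]
      have h1 := Phi_le_Zt lam s A J hle
      have h2 := Zt_cnt_le_L_avg hmu hlam (hT X) (Rs k)
      have h3 : (0:ℝ) ≤ n * (if BadLevel mu A t k X then (1:ℝ) else 0) := by
        split_ifs <;> positivity
      rw [one_mul]
      linarith
    · rw [if_neg hF]
      by_cases hB : BadLevel mu A t k X
      · rw [if_pos hB]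
        have h1 := Phi_le_Zt lam s A J hle
        have h2 := Zt_le mu (cnt (T X) X)
        linarith
      · rw [if_neg hB]
        have := Phi_point h (by omega : t ≤ J) (hT X) hF hB
        linarith
  refine (EP_mono hp hpoint).trans ?_
  rw [EP_add, EP_add, EP_add, EP_const, EP_smul, EP_smul]
  have hE1 : EP (fr mu k) (fun X : Fin lam → Fin n → Bool =>
      (if Flip (Rs k) X then (1:ℝ) else 0) * ((1 / lam) * ∑ j, zc (Rs k)ᶜ (X j))) ≤
      lam * L / n * (w + 1) := by
    apply EP_flip_avg h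
    · intro X Y hXY
      congr 1
      apply Finset.sum_congr rfl
      intro j _
      apply zc_congr
      intro i hi
      exact hXY j i (Finset.mem_compl.mp hi)
    · intro X
      exact mul_nonneg (by positivity) (Finset.sum_nonneg fun j _ => zc_nonneg _ _)
    · rw [EP_smul, EP_sum]
      have h1 : ∀ j : Fin lam, EP (fr mu k) (fun X => zc (Rs k)ᶜ (X j)) ≤ w + 1 := by
        intro j
        rw [EP_single, E1_zc]
        exact mean_le h hk
      have h2 : ∑ j : Fin lam, EP (fr mu k) (fun X => zc (Rs k)ᶜ (X j)) ≤ lam * (w + 1) := by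
        refine (Finset.sum_le_sum fun j _ => h1 j).trans ?_
        rw [Finset.sum_const, Finset.card_univ, Fintype.card_fin, nsmul_eq_mul]
      calc (1 / (lam:ℝ)) * ∑ j : Fin lam, EP (fr mu k) (fun X => zc (Rs k)ᶜ (X j)) ≤
            (1 / (lam:ℝ)) * (lam * (w + 1)) := mul_le_mul_of_nonneg_left h2 (by positivity)
        _ = _ := by field_simp
  have hE2 : n * EP (fr mu k) (fun X : Fin lam → Fin n → Bool =>
      if BadLevel mu A t k X then (1:ℝ) else 0) ≤ 1 / (n:ℝ) ^ 4 := by
    have := prob_bad h htJ hlev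
    calc (n:ℝ) * _ ≤ n * (1 / (n:ℝ) ^ 5) := mul_le_mul_of_nonneg_left this hn.le
      _ = _ := by field_simp
  have hE3 : Q * EP (fr mu k) (fun X => Yf s mu L (T X) X) ≤ Psi lam s A J mu k / 4 := by
    have h1 := EP_Yf h hk (by rw [← hl]; exact hl1) hwJ T hT
    have h2 : Q ≤ Real.exp (s / 2 * lam) *
        (n * Real.exp (-(s / 2 * lam * l)) + bet J n lam L) := by
      rw [hQ, mul_add]
      have h3 : Real.exp (s / 2 * lam) * (n * Real.exp (-(s / 2 * lam * l))) =
          n * Real.exp (-(s / 2 * lam * t)) := by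
        rw [mul_left_comm, ← Real.exp_add, ht]
        congr 2
        push_cast
        ring
      rw [h3]
      have h4 : 1 ≤ Real.exp (s / 2 * lam) := Real.one_le_exp (by positivity)
      have := mul_le_mul_of_nonneg_right h4 hbet
      linarith
    have h5 : 0 ≤ n * Real.exp (-(s / 2 * lam * l)) + bet J n lam L :=
      add_nonneg (by positivity) hbet
    calc Q * EP (fr mu k) (fun X => Yf s mu L (T X) X) ≤
          (Real.exp (s / 2 * lam) * (n * Real.exp (-(s / 2 * lam * l)) + bet J n lam L)) *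
          (2 * Real.exp (s * lam * (w - 1))) := by
          apply mul_le_mul h2 h1
          · exact EP_nonneg hp fun X => Yf_nonneg _ _ _ _ _
          · exact mul_nonneg (Real.exp_pos _).le h5
      _ = 2 * (Real.exp (s / 2 * lam) * Real.exp (-(s * lam))) *
          ((n * Real.exp (-(s / 2 * lam * l)) + bet J n lam L) * Real.exp (s * lam * w)) := by
          have : Real.exp (s * lam * (w - 1)) = Real.exp (-(s * lam)) * Real.exp (s * lam * w) := by
            rw [← Real.exp_add]; congr 1; ring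
          rw [this]; ring
      _ = 2 * Real.exp (-(s / 2 * lam)) * Psi lam s A J mu k := by
          rw [hPsi, ← Real.exp_add]
          congr 3
          ring
      _ ≤ Psi lam s A J mu k / 4 := by
          have h6 := h.he1
          have h7 := mul_le_mul_of_nonneg_right h6 (Psi_nonneg lam s A J mu k)
          linarith
  have hPsi_ge : bet J n lam L ≤ Psi lam s A J mu k := by
    rw [hPsi]
    have h1 : 1 ≤ Real.exp (s * lam * w) := Real.one_le_exp (by positivity)
    have h2 : bet J n lam L ≤ n * Real.exp (-(s / 2 * lam * l)) + bet J n lam L := by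
      have : 0 ≤ (n:ℝ) * Real.exp (-(s / 2 * lam * l)) := by positivity
      linarith
    calc bet J n lam L ≤ n * Real.exp (-(s / 2 * lam * l)) + bet J n lam L := h2
      _ = (n * Real.exp (-(s / 2 * lam * l)) + bet J n lam L) * 1 := by ring
      _ ≤ _ := mul_le_mul_of_nonneg_left h1 (by linarith)
  have hb2 : lam * L / n * (w + 1) ≤ 3 / 4 * ((J + 2) * lam * L / n) := by
    have h1 : w + 1 ≤ 3 / 4 * ((J:ℝ) + 2) := by
      have : (0:ℝ) ≤ J := Nat.cast_nonneg _
      linarith
    have h2 : 0 ≤ lam * L / n := by positivity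
    have := mul_le_mul_of_nonneg_left h1 h2
    calc lam * L / n * (w + 1) ≤ lam * L / n * (3 / 4 * ((J:ℝ) + 2)) := this
      _ = _ := by ring
  have hb3 : 1 / (n:ℝ) ^ 4 + 1 / (n:ℝ) ^ 3 ≤ 3 / 4 * (2 / (n:ℝ) ^ 3) := by
    have hn4 : (4:ℝ) ≤ n := by exact_mod_cast h.hn
    have h1 : 1 / (n:ℝ) ^ 4 = (1 / n) * (1 / (n:ℝ) ^ 3) := by field_simp
    have h2 := inv_n_le h.hn
    have h3 : (0:ℝ) < 1 / (n:ℝ) ^ 3 := by positivity
    have h4 : 2 / (n:ℝ) ^ 3 = 2 * (1 / (n:ℝ) ^ 3) := by ring
    rw [h1, h4]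
    nlinarith
  have hbdef : bet J n lam L = (J + 2) * lam * L / n + 2 / (n:ℝ) ^ 3 := rfl
  linarith

end Pool.Agent.Helper26.UMDA
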