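import Pool.Agent.Helper26.UMDA.DriftB

/-!
Drift of the potential at the borders, and the combined drift estimate.
-/

namespace Pool.Agent.Helper26.UMDA

open Finset

variable {n lam mu J : ℕ} {s A : ℝ}

theorem drift_border (h : Par n lam mu J s A) {k : Fin n → ℕ} (hk : ∀ i, k i ≤ mu)
    (hb : Border mu k)
    (T : (Fin lam → Fin n → Bool) → Finset (Fin lam)) (hT : ∀ X, IsBest mu X (T X)) :
    EP (fr mu k) (fun X => Phi lam s A J mu (cnt (T X) X)) ≤
      ((Rs k).card : ℝ) - 1 / 2 * ((Rs k).card / n) + 1 / (n:ℝ) ^ 4 + 1 / 2 * (1 / (n:ℝ) ^ 3) := by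
  classical
  have hp := h.valid k
  have hmu := h.mupos
  have hmu' : (0:ℝ) < mu := by exact_mod_cast hmu
  have hlam := h.lampos
  have hlam' : (0:ℝ) < lam := by exact_mod_cast hlam
  have hs := h.hs0
  have hn := h.npos
  set L : ℝ := ((Rs k).card : ℝ) with hL
  have hL0 : 0 ≤ L := Nat.cast_nonneg _
  have hw : wt mu k = 0 := hb.wt_eq hmu
  have hbet : 0 ≤ bet J n lam L := bet_nonneg _ _ _ hL0
  set N := (Rs k)ᶜ with hN
  have hztz : ∀ i, k i ≠ 0 → zt mu k i = 0 := by
    intro i hi
    have h1 := (hb i).resolve_left hi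
    unfold zt
    rw [h1, div_self hmu'.ne']
    ring
  have hl1 : 1 ≤ lvl A J mu k := by
    apply le_lvl h.hJ
    intro i hi
    rw [hztz i hi]
    exact (zl_pos _ _).le
  obtain ⟨t, ht⟩ : ∃ t, J = t + 1 := ⟨J - 1, by have := h.hJ; omega⟩
  have hlev : ∀ i, k i ≠ 0 → zt mu k i ≤ zl A (t + 1) := by
    intro i hi
    rw [hztz i hi]
    exact (zl_pos _ _).le
  have hNq : ∀ i ∈ N, 1 - fr mu k i = 1 / n := by
    intro i hi
    rw [hN, Finset.mem_compl, mem_Rs] at hi
    rw [fr_mu h.hn hmu ((hb i).resolve_left hi)]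
    ring
  have hN4 : ∀ i ∈ N, 1 - fr mu k i ≤ 1 / 4 := by
    intro i hi
    rw [hNq i hi]
    exact inv_n_le h.hn
  have hN1 : ∑ i ∈ N, (1 - fr mu k i) ≤ 1 := by
    rw [Finset.sum_congr rfl hNq, Finset.sum_const, nsmul_eq_mul]
    have h3 : (N.card : ℝ) ≤ n := by
      have := Finset.card_le_univ N
      rw [Fintype.card_fin] at this
      exact_mod_cast this
    rw [mul_one_div, div_le_one hn]
    exact h3
  have hsel : ∀ G : Finset (Fin lam), ∃ (T1 : Finset (Fin lam)), mu < G.card →
      (T1 ⊆ G ∧ T1.card = mu) := by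
    intro G
    by_cases hG : mu < G.card
    · obtain ⟨T1, hT1, hc⟩ := Finset.exists_subset_card_eq hG.le
      exact ⟨T1, fun _ => ⟨hT1, hc⟩⟩
    · exact ⟨∅, fun h' => absurd h' hG⟩
  choose T1 hsel using hsel
  set Q : ℝ := n * Real.exp (-(s / 2 * lam * t)) + bet J n lam L with hQ
  have hQ0 : 0 ≤ Q := add_nonneg (by positivity) hbet
  set c : Fin lam → (Fin lam → Fin n → Bool) → ℝ := fun j X =>
    if mu < (good N 0 X).card ∧ j ∈ T1 (good N 0 X) then 1 / (mu : ℝ) else 0 with hc
  set f : (Fin lam → Fin n → Bool) → ℝ := fun X =>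
    if (good N 0 X).card ≤ mu then (1:ℝ) else 0 with hf
  have hpoint : ∀ X : Fin lam → Fin n → Bool, Phi lam s A J mu (cnt (T X) X) ≤
      ((((∑ j, c j X * zc (Rs k) (X j)) + L * f X) +
      (if Flip (Rs k) X then (1:ℝ) else 0) * (f X * ((1 / lam) * ∑ j, zc N (X j)))) +
      n * (if BadLevel mu A t k X then (1:ℝ) else 0)) + Q * Yf s mu L (T X) X := by
    intro X
    have hle := cnt_le (hT X).1 X
    have hY := mul_nonneg hQ0 (Yf_nonneg s mu L (T X) X)
    have hBn : (0:ℝ) ≤ n * (if BadLevel mu A t k X then (1:ℝ) else 0) := by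
      split_ifs <;> positivity
    by_cases hG : mu < (good N 0 X).card
    · obtain ⟨hs1, hs2⟩ := hsel (good N 0 X) hG
      have hf0 : f X = 0 := by
        simp only [hf]
        rw [if_neg (by omega)]
      have hc1 : ∑ j, c j X * zc (Rs k) (X j) =
          (1 / mu) * ∑ j ∈ T1 (good N 0 X), zc (Rs k) (X j) := by
        simp only [hc]
        rw [Finset.mul_sum, ← Finset.sum_subset (Finset.subset_univ (T1 (good N 0 X)))]
        · apply Finset.sum_congr rfl
          intro j hj
          rw [if_pos ⟨hG, hj⟩]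
        · intro j _ hj
          rw [if_neg (fun h' => hj h'.2), zero_mul]
      rw [hc1, hf0]
      have h1 := Phi_le_Zt lam s A J hle
      have h2 := Zt_cnt_le_of_card hmu (hT X) hs2
      have h3 : ∑ j ∈ T1 (good N 0 X), zc Finset.univ (X j) =
          ∑ j ∈ T1 (good N 0 X), zc (Rs k) (X j) := by
        apply Finset.sum_congr rfl
        intro j hj
        have h4 := hs1 hj
        unfold good at h4
        rw [Finset.mem_filter] at h4
        have h5 : zc N (X j) = 0 := le_antisymm h4.2 (zc_nonneg N (X j))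
        rw [zc_split (Rs k), ← hN, h5, add_zero]
      rw [h3] at h2
      simp only [mul_zero, zero_mul, add_zero]
      linarith
    · have hf1 : f X = 1 := by
        simp only [hf]
        rw [if_pos (by omega)]
      have hc0 : ∑ j, c j X * zc (Rs k) (X j) = 0 := by
        apply Finset.sum_eq_zero
        intro j _
        simp only [hc]
        rw [if_neg (fun h' => hG h'.1), zero_mul]
      rw [hf1, hc0]
      by_cases hF : Flip (Rs k) X
      · rw [if_pos hF]
        have h1 := Phi_le_Zt lam s A J hle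
        have h2 := Zt_cnt_le_L_avg hmu hlam (hT X) (Rs k)
        simp only [one_mul, mul_one, zero_add]
        linarith
      · rw [if_neg hF]
        by_cases hB : BadLevel mu A t k X
        · rw [if_pos hB]
          have h1 := Phi_le_Zt lam s A J hle
          have h2 := Zt_le mu (cnt (T X) X)
          simp only [zero_mul, mul_one, zero_add, add_zero]
          linarith
        · rw [if_neg hB]
          have := Phi_point h (by omega : t ≤ J) (hT X) hF hB
          simp only [zero_mul, mul_one, zero_add, add_zero, mul_zero]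
          linarith
  refine (EP_mono hp hpoint).trans ?_
  rw [EP_add, EP_add, EP_add, EP_add, EP_smul, EP_smul, EP_smul]
  -- congruence
  have hcc : ∀ j, ∀ X Y : Fin lam → Fin n → Bool, (∀ j, ∀ i ∈ N, X j i = Y j i) →
      c j X = c j Y := by
    intro j X Y hXY
    simp only [hc, good_congr hXY]
  have hfc : ∀ X Y : Fin lam → Fin n → Bool, (∀ j, ∀ i ∈ N, X j i = Y j i) →
      f X = f Y := by
    intro X Y hXY
    simp only [hf, good_congr hXY]
  have hSc : ∀ j, ∀ X Y : Fin lam → Fin n → Bool, (∀ j, ∀ i, i ∉ N → X j i = Y j i) →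
      zc (Rs k) (X j) = zc (Rs k) (Y j) := by
    intro j X Y hXY
    apply zc_congr
    intro i hi
    exact hXY j i (by rw [hN, Finset.mem_compl]; exact fun h' => h' hi)
  set P1 := EP (fr mu k) (fun X : Fin lam → Fin n → Bool => f X) with hP1
  have hP1S : P1 ≤ Real.exp (-(s * lam)) := prob_few h hp N hN4 hN1
  have hE1 : EP (fr mu k) (fun X => ∑ j, c j X * zc (Rs k) (X j)) =
      (1 - P1) * (L * (1 - 1 / n)) := by
    rw [EP_sum]
    have h1 : ∀ j, EP (fr mu k) (fun X => c j X * zc (Rs k) (X j)) =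
        EP (fr mu k) (c j) * (L * (1 - 1 / n)) := by
      intro j
      rw [EP_indep (fr mu k) N (c j) (fun X => zc (Rs k) (X j)) (hcc j) (hSc j), EP_single,
        E1_zc]
      congr 1
      rw [Finset.sum_congr rfl (g := fun _ => 1 - 1 / (n:ℝ))]
      · rw [Finset.sum_const, nsmul_eq_mul]
      · intro i hi
        rw [mem_Rs] at hi
        rw [fr_zero h.hn hi]
    simp only [h1]
    rw [← Finset.sum_mul, ← EP_sum]
    congr 1
    have h2 : ∀ X : Fin lam → Fin n → Bool, ∑ j, c j X = 1 - f X := by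
      intro X
      by_cases hG : mu < (good N 0 X).card
      · obtain ⟨hs1, hs2⟩ := hsel (good N 0 X) hG
        simp only [hc, hf]
        rw [if_neg (by omega), ← Finset.sum_subset (Finset.subset_univ (T1 (good N 0 X)))]
        · rw [Finset.sum_congr rfl (g := fun _ => 1 / (mu : ℝ))]
          · rw [Finset.sum_const, hs2, nsmul_eq_mul]
            field_simp
            ring
          · intro j hj
            rw [if_pos ⟨hG, hj⟩]
        · intro j _ hj
          rw [if_neg (fun h' => hj h'.2)]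
      · simp only [hc, hf]
        rw [if_pos (by omega)]
        rw [Finset.sum_eq_zero]
        · ring
        · intro j _
          rw [if_neg (fun h' => hG h'.1)]
    simp only [h2]
    rw [EP_sub, EP_const]
  have hE2 : EP (fr mu k) (fun X : Fin lam → Fin n → Bool =>
      (if Flip (Rs k) X then (1:ℝ) else 0) * (f X * ((1 / lam) * ∑ j, zc N (X j)))) ≤
      1 / 8 * (L / n) := by
    have h1 : EP (fr mu k) (fun X : Fin lam → Fin n → Bool =>
      (if Flip (Rs k) X then (1:ℝ) else 0) * (f X * ((1 / lam) * ∑ j, zc N (X j)))) ≤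
      lam * L / n * (Real.exp (-(s * lam)) / (s * lam)) := by
      apply EP_flip_avg h
      · intro X Y hXY
        have hXY' : ∀ j, ∀ i ∈ N, X j i = Y j i := by
          intro j i hi
          exact hXY j i (Finset.mem_compl.mp hi)
        rw [hfc X Y hXY']
        congr 2
        apply Finset.sum_congr rfl
        intro j _
        exact zc_congr (hXY' j)
      · intro X
        apply mul_nonneg
        · simp only [hf]
          split_ifs <;> norm_num
        · exact mul_nonneg (by positivity) (Finset.sum_nonneg fun j _ => zc_nonneg _ _)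
      · exact avg_few h hp N hN4 hN1
    refine h1.trans ?_
    have h2 : lam * L / n * (Real.exp (-(s * lam)) / (s * lam)) =
        (Real.exp (-(s * lam)) / s) * (L / n) := by
      field_simp
    rw [h2]
    apply mul_le_mul_of_nonneg_right _ (by positivity)
    rw [div_le_iff₀ hs]
    have := h.he3
    linarith
  have hE3 : n * EP (fr mu k) (fun X : Fin lam → Fin n → Bool =>
      if BadLevel mu A t k X then (1:ℝ) else 0) ≤ 1 / (n:ℝ) ^ 4 := by
    have := prob_bad h (by omega : t + 1 ≤ J) hlev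
    calc (n:ℝ) * _ ≤ n * (1 / (n:ℝ) ^ 5) := mul_le_mul_of_nonneg_left this hn.le
      _ = _ := by field_simp
  have hE4 : Q * EP (fr mu k) (fun X => Yf s mu L (T X) X) ≤
      1 / 2 * (1 / (n:ℝ) ^ 3) + 1 / 8 * (L / n) := by
    have h1 := EP_Yf h hk hl1 (by rw [hw]; positivity) T hT
    rw [hw] at h1
    have h2 : s * lam * ((0:ℝ) - 1) = -(s * lam) := by ring
    rw [h2] at h1
    have h3 : Q ≤ 3 / (n:ℝ) ^ 3 + (J + 2) * lam * L / n := by
      rw [hQ]
      have h4 := h.hjn
      have h5 : ((J:ℝ) - 1) = t := by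
        rw [ht]; push_cast; ring
      rw [h5] at h4
      unfold bet
      have h6 : (3:ℝ) / n ^ 3 = 1 / n ^ 3 + 2 / n ^ 3 := by ring
      rw [h6]
      linarith
    have h7 : 0 ≤ (J + 2) * lam * L / n := by positivity
    calc Q * EP (fr mu k) (fun X => Yf s mu L (T X) X) ≤
          (3 / (n:ℝ) ^ 3 + (J + 2) * lam * L / n) * (2 * Real.exp (-(s * lam))) := by
          apply mul_le_mul h3 h1
          · exact EP_nonneg hp fun X => Yf_nonneg _ _ _ _ _
          · positivity
      _ = 6 * Real.exp (-(s * lam)) * (1 / (n:ℝ) ^ 3) +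
          (2 * (J + 2) * lam * Real.exp (-(s * lam))) * (L / n) := by ring
      _ ≤ _ := by
          have h8 := h.he2
          have h9 := h.he4
          have h10 : 6 * Real.exp (-(s * lam)) ≤ 1 / 2 := by linarith
          have h11 := mul_le_mul_of_nonneg_right h10 (by positivity : (0:ℝ) ≤ 1 / (n:ℝ) ^ 3)
          have h12 := mul_le_mul_of_nonneg_right h9 (by positivity : (0:ℝ) ≤ L / n)
          linarith
  rw [hE1]
  have h20 : (1 - P1) * (L * (1 - 1 / n)) + L * P1 = L - (1 - P1) * (L / n) := by ring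
  have h21 : (3:ℝ) / 4 * (L / n) ≤ (1 - P1) * (L / n) := by
    apply mul_le_mul_of_nonneg_right _ (by positivity)
    have := h.he2
    linarith
  linarith

/-- the combined drift estimate -/
theorem drift_all (h : Par n lam mu J s A) {k : Fin n → ℕ} (hk : ∀ i, k i ≤ mu)
    (hne : ∃ i, k i ≠ mu)
    (T : (Fin lam → Fin n → Bool) → Finset (Fin lam)) (hT : ∀ X, IsBest mu X (T X)) :
    EP (fr mu k) (fun X => Phi lam s A J mu (cnt (T X) X)) ≤
      Phi lam s A J mu k - 1 / (n:ℝ) ^ 3 := by
  classical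
  have hp := h.valid k
  have hn := h.npos
  by_cases hb : Border mu k
  · have h1 := drift_border h hk hb T hT
    have h2 : Phi lam s A J mu k = ((Rs k).card : ℝ) := by
      unfold Phi
      rw [if_pos hb]
    rw [h2]
    have hL : (1:ℝ) ≤ ((Rs k).card : ℝ) := by
      obtain ⟨i, hi⟩ := hne
      have h3 := (hb i).resolve_right hi
      have : 0 < (Rs k).card := Finset.card_pos.mpr ⟨i, mem_Rs.mpr h3⟩
      exact_mod_cast this
    have hn4 : (4:ℝ) ≤ n := by exact_mod_cast h.hn
    have h3 : (1:ℝ) / n ≤ (Rs k).card / n := div_le_div_of_nonneg_right hL hn.le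
    have h4 : 1 / (n:ℝ) ^ 4 = (1 / n) * (1 / (n:ℝ) ^ 3) := by field_simp
    have h5 := inv_n_le h.hn
    have h6 : (0:ℝ) < 1 / (n:ℝ) ^ 3 := by positivity
    have h7 : (16:ℝ) * (1 / (n:ℝ) ^ 3) ≤ 1 / n := by
      have h8 : (1:ℝ) / n = (n:ℝ) ^ 2 * (1 / (n:ℝ) ^ 3) := by field_simp
      rw [h8]
      apply mul_le_mul_of_nonneg_right _ h6.le
      nlinarith
    have h8 : 1 / (n:ℝ) ^ 4 ≤ 1 / 4 * (1 / (n:ℝ) ^ 3) := by
      rw [h4]
      exact mul_le_mul_of_nonneg_right h5 h6.le
    linarith
  · by_cases hlt : ((Rs k).card : ℝ) + Psi lam s A J mu k < Zt mu k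
    · have h1 := drift_B h hk hlt T hT
      have h2 : Phi lam s A J mu k = ((Rs k).card : ℝ) + Psi lam s A J mu k := by
        unfold Phi
        rw [if_neg hb, min_eq_right hlt.le]
      rw [h2]
      exact h1
    · have h2 : Phi lam s A J mu k = Zt mu k := by
        unfold Phi
        rw [if_neg hb, min_eq_left (not_lt.mp hlt)]
      rw [h2]
      refine (EP_mono hp fun X => ?_).trans (drift_Z h hk hb T hT)
      exact Phi_le_Zt lam s A J (cnt_le (hT X).1 X)

/-- the potential stays small when all frequencies are at the upper border -/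
theorem drift_top (h : Par n lam mu J s A) {k : Fin n → ℕ} (hk : ∀ i, k i = mu)
    (T : (Fin lam → Fin n → Bool) → Finset (Fin lam)) (hT : ∀ X, IsBest mu X (T X)) :
    EP (fr mu k) (fun X => Phi lam s A J mu (cnt (T X) X)) ≤ 1 / (n:ℝ) ^ 3 := by
  have hn := h.npos
  have h1 := drift_border h (fun i => (hk i).le) (fun i => Or.inr (hk i)) T hT
  have h2 : ((Rs k).card : ℝ) = 0 := by
    have : (Rs k).card = 0 := by
      rw [Finset.card_eq_zero]
      ext i
      rw [mem_Rs, hk i]
      have := h.mupos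
      simp
      omega
    exact_mod_cast this
  rw [h2] at h1
  have h4 : 1 / (n:ℝ) ^ 4 = (1 / n) * (1 / (n:ℝ) ^ 3) := by field_simp
  have h5 := inv_n_le h.hn
  have h6 : (0:ℝ) < 1 / (n:ℝ) ^ 3 := by positivity
  have h8 : 1 / (n:ℝ) ^ 4 ≤ 1 / 4 * (1 / (n:ℝ) ^ 3) := by
    rw [h4]
    exact mul_le_mul_of_nonneg_right h5 h6.le
  have h9 : (0:ℝ) / n = 0 := by simp
  rw [h9] at h1
  linarith

end Pool.Agent.Helper26.UMDA
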