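import Pool.Agent.Helper26.UMDA.Drift

/-!
Drift of the total fraction of zeros away from the borders.
-/

namespace Pool.Agent.Helper26.UMDA

open Finset

variable {n lam mu J : ℕ} {s A : ℝ}

theorem zc_congr {M : Finset (Fin n)} {x y : Fin n → Bool} (h : ∀ i ∈ M, x i = y i) :
    zc M x = zc M y := by
  unfold zc
  apply Finset.sum_congr rfl
  intro i hi
  rw [h i hi]

theorem good_congr {M : Finset (Fin n)} {θ : ℝ} {X Y : Fin lam → Fin n → Bool}
    (h : ∀ j, ∀ i ∈ M, X j i = Y j i) : good M θ X = good M θ Y := by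
  unfold good
  apply Finset.filter_congr
  intro j _
  rw [zc_congr (h j)]

theorem drift_Z (h : Par n lam mu J s A) {k : Fin n → ℕ} (hk : ∀ i, k i ≤ mu)
    (hb : ¬ Border mu k) (T : (Fin lam → Fin n → Bool) → Finset (Fin lam))
    (hT : ∀ X, IsBest mu X (T X)) :
    EP (fr mu k) (fun X => Zt mu (cnt (T X) X)) ≤ Zt mu k - 1 / (n:ℝ) ^ 3 := by
  classical
  have hp := h.valid k
  have hmu := h.mupos
  have hmu' : (0:ℝ) < mu := by exact_mod_cast hmu
  have hlam := h.lampos
  have hlam' : (0:ℝ) < lam := by exact_mod_cast hlam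
  have hn := h.npos
  -- the position away from the borders
  obtain ⟨i0, hi0⟩ : ∃ i, ¬ (k i = 0 ∨ k i = mu) := by
    by_contra hcon
    push Not at hcon
    exact hb hcon
  push Not at hi0
  have hi0pos : 0 < k i0 := Nat.pos_of_ne_zero hi0.1
  have hi0lt : k i0 < mu := lt_of_le_of_ne (hk i0) hi0.2
  set U : Finset (Fin n) := Finset.univ.filter fun i => k i = mu with hU
  have hi0U : i0 ∈ Uᶜ := by
    rw [Finset.mem_compl, hU]
    simp [hi0.2]
  have hUq : ∀ i ∈ U, 1 - fr mu k i = 1 / n := by
    intro i hi
    rw [hU, Finset.mem_filter] at hi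
    rw [fr_mu h.hn hmu hi.2]
    ring
  have hU4 : ∀ i ∈ U, 1 - fr mu k i ≤ 1 / 4 := by
    intro i hi
    rw [hUq i hi]
    exact inv_n_le h.hn
  have hU1 : ∑ i ∈ U, (1 - fr mu k i) ≤ 1 := by
    rw [Finset.sum_congr rfl hUq, Finset.sum_const, nsmul_eq_mul]
    have h3 : (U.card : ℝ) ≤ n := by
      have := Finset.card_le_univ U
      rw [Fintype.card_fin] at this
      exact_mod_cast this
    rw [mul_one_div, div_le_one hn]
    exact h3
  -- choice of the selected set
  have hsel : ∀ G : Finset (Fin lam), ∃ (T1 : Finset (Fin lam)) (a b : Fin lam), mu < G.card →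
      (T1 ⊆ G ∧ T1.card = mu ∧ a ∈ T1 ∧ b ∈ G ∧ b ∉ T1) := by
    intro G
    by_cases hG : mu < G.card
    · obtain ⟨T1, hT1, hc⟩ := Finset.exists_subset_card_eq hG.le
      have hne : T1.Nonempty := by
        rw [← Finset.card_pos, hc]; exact hmu
      obtain ⟨a, ha⟩ := hne
      have : ∃ b ∈ G, b ∉ T1 := by
        by_contra hcon
        push Not at hcon
        have := Finset.card_le_card (show G ⊆ T1 from hcon)
        omega
      obtain ⟨b, hbG, hbT⟩ := this
      exact ⟨T1, a, b, fun _ => ⟨hT1, hc, ha, hbG, hbT⟩⟩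
    · exact ⟨∅, ⟨0, hlam⟩, ⟨0, hlam⟩, fun h' => absurd h' hG⟩
  choose T1 ca cb hsel using hsel
  set M := Uᶜ with hM
  set θ := ∑ i ∈ M, (1 - fr mu k i) with hθ
  set q := fr mu k i0 * (1 - fr mu k i0) with hq
  -- coefficient functions
  set c : Fin lam → (Fin lam → Fin n → Bool) → ℝ := fun j X =>
    if mu < (good U 0 X).card ∧ j ∈ T1 (good U 0 X) then 1 / (mu : ℝ) else 0 with hc
  set d : Fin lam → Fin lam → (Fin lam → Fin n → Bool) → ℝ := fun a b X =>
    if mu < (good U 0 X).card ∧ (ca (good U 0 X) = a ∧ cb (good U 0 X) = b) then 1 / (mu : ℝ)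
      else 0 with hd
  set f : (Fin lam → Fin n → Bool) → ℝ := fun X =>
    if (good U 0 X).card ≤ mu then (1:ℝ) else 0 with hf
  have hpoint : ∀ X : Fin lam → Fin n → Bool, Zt mu (cnt (T X) X) ≤
      ((∑ j, c j X * zc M (X j)) + f X * ((1 / lam) * ∑ j, zc M (X j)) +
        f X * ((1 / lam) * ∑ j, zc U (X j))) -
        ∑ a, ∑ b, d a b X * max (zc M (X a) - zc M (X b)) 0 := by
    intro X
    by_cases hG : mu < (good U 0 X).card
    · obtain ⟨hs1, hs2, hs3, hs4, hs5⟩ := hsel (good U 0 X) hG
      have hf0 : f X = 0 := by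
        simp only [hf]
        rw [if_neg (by omega)]
      set G := good U 0 X with hGdef
      have hc1 : ∑ j, c j X * zc M (X j) = (1 / mu) * ∑ j ∈ T1 G, zc M (X j) := by
        simp only [hc]
        rw [Finset.mul_sum, ← Finset.sum_subset (Finset.subset_univ (T1 G))]
        · apply Finset.sum_congr rfl
          intro j hj
          rw [if_pos ⟨hG, hj⟩]
        · intro j _ hj
          rw [if_neg (fun h' => hj h'.2), zero_mul]
      have hd1 : ∑ a, ∑ b, d a b X * max (zc M (X a) - zc M (X b)) 0 =
          (1 / mu) * max (zc M (X (ca G)) - zc M (X (cb G))) 0 := by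
        simp only [hd]
        rw [Finset.sum_eq_single (ca G)]
        · rw [Finset.sum_eq_single (cb G)]
          · rw [if_pos ⟨hG, rfl, rfl⟩]
          · intro b _ hb'
            rw [if_neg (fun h' => hb' h'.2.2.symm), zero_mul]
          · intro h'
            exact absurd (Finset.mem_univ _) h'
        · intro a _ ha'
          apply Finset.sum_eq_zero
          intro b _
          rw [if_neg (fun h' => ha' h'.2.1.symm), zero_mul]
        · intro h'
          exact absurd (Finset.mem_univ _) h'
      rw [hf0, hc1, hd1]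
      have hgz : ∀ j ∈ G, zc Finset.univ (X j) = zc M (X j) := by
        intro j hj
        rw [hGdef] at hj
        unfold good at hj
        rw [Finset.mem_filter] at hj
        have := zc_nonneg U (X j)
        have h0 : zc U (X j) = 0 := le_antisymm hj.2 this
        rw [zc_split U, h0, zero_add]
      have hZ1 : Zt mu (cnt (T X) X) ≤ (1 / mu) * ∑ j ∈ T1 G, zc M (X j) := by
        refine (Zt_cnt_le_of_card hmu (hT X) hs2).trans ?_
        rw [Finset.sum_congr rfl (fun j hj => hgz j (hs1 hj))]
      have hZ2 : Zt mu (cnt (T X) X) ≤ (1 / mu) * (∑ j ∈ T1 G, zc M (X j) -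
          (zc M (X (ca G)) - zc M (X (cb G)))) := by
        have hbe : cb G ∉ (T1 G).erase (ca G) := fun h' => hs5 (Finset.mem_of_mem_erase h')
        have hcard : (insert (cb G) ((T1 G).erase (ca G))).card = mu := by
          rw [Finset.card_insert_of_notMem hbe, Finset.card_erase_of_mem hs3, hs2]
          omega
        refine (Zt_cnt_le_of_card hmu (hT X) hcard).trans ?_
        apply mul_le_mul_of_nonneg_left _ (by positivity)
        rw [Finset.sum_insert hbe, hgz _ hs4,
          Finset.sum_congr rfl (fun j hj => hgz j (hs1 (Finset.mem_of_mem_erase hj)))]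
        have := Finset.add_sum_erase (T1 G) (fun j => zc M (X j)) hs3
        linarith
      rcases le_total (zc M (X (ca G)) - zc M (X (cb G))) 0 with h' | h'
      · rw [max_eq_right h']
        simpa using hZ1
      · rw [max_eq_left h']
        linarith
    · have hf1 : f X = 1 := by
        simp only [hf]
        rw [if_pos (by omega)]
      have hc0 : ∑ j, c j X * zc M (X j) = 0 := by
        apply Finset.sum_eq_zero
        intro j _
        simp only [hc]
        rw [if_neg (fun h' => hG h'.1), zero_mul]
      have hd0 : ∑ a, ∑ b, d a b X * max (zc M (X a) - zc M (X b)) 0 = 0 := by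
        apply Finset.sum_eq_zero
        intro a _
        apply Finset.sum_eq_zero
        intro b _
        simp only [hd]
        rw [if_neg (fun h' => hG h'.1), zero_mul]
      rw [hf1, hc0, hd0]
      refine (Zt_cnt_le_avg hmu hlam (hT X)).trans ?_
      simp_rw [zc_split U]
      rw [Finset.sum_add_distrib]
      linarith
  refine (EP_mono hp hpoint).trans ?_
  -- congruence of the coefficient functions
  have hcc : ∀ j, ∀ X Y : Fin lam → Fin n → Bool, (∀ j, ∀ i ∈ U, X j i = Y j i) →
      c j X = c j Y := by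
    intro j X Y hXY
    simp only [hc, good_congr hXY]
  have hdc : ∀ a b, ∀ X Y : Fin lam → Fin n → Bool, (∀ j, ∀ i ∈ U, X j i = Y j i) →
      d a b X = d a b Y := by
    intro a b X Y hXY
    simp only [hd, good_congr hXY]
  have hfc : ∀ X Y : Fin lam → Fin n → Bool, (∀ j, ∀ i ∈ U, X j i = Y j i) →
      f X = f Y := by
    intro X Y hXY
    simp only [hf, good_congr hXY]
  have hSc : ∀ j, ∀ X Y : Fin lam → Fin n → Bool, (∀ j, ∀ i, i ∉ U → X j i = Y j i) →
      zc M (X j) = zc M (Y j) := by
    intro j X Y hXY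
    apply zc_congr
    intro i hi
    exact hXY j i (Finset.mem_compl.mp hi)
  set P1 := EP (fr mu k) (fun X : Fin lam → Fin n → Bool => f X) with hP1
  have hP1S : P1 ≤ Real.exp (-(s * lam)) := prob_few h hp U hU4 hU1
  have hP0 : 0 ≤ P1 := EP_nonneg hp (fun X => by simp only [hf]; split_ifs <;> norm_num)
  -- expectations
  have hE1 : EP (fr mu k) (fun X => ∑ j, c j X * zc M (X j)) = (1 - P1) * θ := by
    rw [EP_sum]
    have h1 : ∀ j, EP (fr mu k) (fun X => c j X * zc M (X j)) =
        EP (fr mu k) (c j) * θ := by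
      intro j
      rw [EP_indep (fr mu k) U (c j) (fun X => zc M (X j)) (hcc j) (hSc j), EP_single,
        E1_zc]
    simp only [h1]
    rw [← Finset.sum_mul, ← EP_sum]
    congr 1
    have h2 : ∀ X : Fin lam → Fin n → Bool, ∑ j, c j X = 1 - f X := by
      intro X
      by_cases hG : mu < (good U 0 X).card
      · obtain ⟨hs1, hs2, hs3, hs4, hs5⟩ := hsel (good U 0 X) hG
        simp only [hc, hf]
        rw [if_neg (by omega), ← Finset.sum_subset (Finset.subset_univ (T1 (good U 0 X)))]
        · rw [Finset.sum_congr rfl (g := fun _ => 1 / (mu : ℝ))]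
          · rw [Finset.sum_const, hs2, nsmul_eq_mul]
            field_simp
            ring
          · intro j hj
            rw [if_pos ⟨hG, hj⟩]
        · intro j _ hj
          rw [if_neg (fun h' => hj h'.2)]
      · simp only [hc, hf]
        rw [if_pos (by omega)]
        rw [Finset.sum_eq_zero]
        · ring
        · intro j _
          rw [if_neg (fun h' => hG h'.1)]
    simp only [h2]
    rw [EP_sub, EP_const]
  have hE2 : EP (fr mu k) (fun X => f X * ((1 / lam) * ∑ j, zc M (X j))) = P1 * θ := by
    rw [EP_indep (fr mu k) U f (fun X => (1 / lam) * ∑ j, zc M (X j)) hfc]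
    · rw [EP_smul, EP_sum]
      have h1 : ∀ j : Fin lam, EP (fr mu k) (fun X => zc M (X j)) = θ := by
        intro j
        rw [EP_single, E1_zc]
      simp only [h1]
      rw [Finset.sum_const, Finset.card_univ, Fintype.card_fin, nsmul_eq_mul]
      have h2 : (1 / (lam : ℝ)) * (lam * θ) = θ := by field_simp
      rw [h2]
    · intro X Y hXY
      congr 1
      apply Finset.sum_congr rfl
      intro j _
      exact hSc j X Y hXY
  have hE3 : EP (fr mu k) (fun X : Fin lam → Fin n → Bool =>
      f X * ((1 / lam) * ∑ j, zc U (X j))) ≤ Real.exp (-(s * lam)) / (s * lam) :=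
    avg_few h hp U hU4 hU1
  have hE4 : (1 - P1) * (q / mu) ≤ EP (fr mu k) (fun X =>
      ∑ a, ∑ b, d a b X * max (zc M (X a) - zc M (X b)) 0) := by
    rw [EP_sum]
    have h1 : ∀ a, EP (fr mu k) (fun X => ∑ b, d a b X * max (zc M (X a) - zc M (X b)) 0) =
        ∑ b, EP (fr mu k) (fun X => d a b X * max (zc M (X a) - zc M (X b)) 0) := by
      intro a
      rw [EP_sum]
    simp only [h1]
    have hdnn : ∀ a b X, 0 ≤ d a b X := by
      intro a b X
      simp only [hd]
      split_ifs
      · positivity
      · exact le_rfl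
    have h2 : ∀ a b, EP (fr mu k) (d a b) * q ≤
        EP (fr mu k) (fun X => d a b X * max (zc M (X a) - zc M (X b)) 0) := by
      intro a b
      by_cases hab : a = b
      · subst hab
        have hzero : ∀ X, d a a X = 0 := by
          intro X
          simp only [hd]
          rw [if_neg]
          rintro ⟨hG, h3, h4⟩
          obtain ⟨hs1, hs2, hs3, hs4, hs5⟩ := hsel (good U 0 X) hG
          rw [h3] at hs3
          rw [h4] at hs5
          exact hs5 hs3
        have h3 : EP (fr mu k) (d a a) = 0 := by
          have : d a a = fun _ => (0:ℝ) := by funext X; exact hzero X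
          rw [this, EP_const]
        rw [h3, zero_mul]
        apply EP_nonneg hp
        intro X
        exact mul_nonneg (hdnn _ _ _) (le_max_right _ _)
      · rw [EP_indep (fr mu k) U (d a b) (fun X => max (zc M (X a) - zc M (X b)) 0) (hdc a b)]
        · apply mul_le_mul_of_nonneg_left _ (EP_nonneg hp (hdnn a b))
          exact EP_diff hp hab M hi0U
        · intro X Y hXY
          rw [hSc a X Y hXY, hSc b X Y hXY]
    refine le_trans ?_ (Finset.sum_le_sum fun a _ => Finset.sum_le_sum fun b _ => h2 a b)
    simp_rw [← Finset.sum_mul]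
    have h3 : ∑ a, ∑ b, EP (fr mu k) (d a b) = (1 - P1) / mu := by
      have h4 : ∀ X : Fin lam → Fin n → Bool, ∑ a, ∑ b, d a b X = (1 / mu) * (1 - f X) := by
        intro X
        by_cases hG : mu < (good U 0 X).card
        · simp only [hd, hf]
          rw [if_neg (by omega)]
          rw [Finset.sum_eq_single (ca (good U 0 X))]
          · rw [Finset.sum_eq_single (cb (good U 0 X))]
            · rw [if_pos ⟨hG, rfl, rfl⟩]
              ring
            · intro b _ hb'
              rw [if_neg (fun h' => hb' h'.2.2.symm)]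
            · intro h'
              exact absurd (Finset.mem_univ _) h'
          · intro a _ ha'
            apply Finset.sum_eq_zero
            intro b _
            rw [if_neg (fun h' => ha' h'.2.1.symm)]
          · intro h'
            exact absurd (Finset.mem_univ _) h'
        · simp only [hd, hf]
          rw [if_pos (by omega)]
          rw [Finset.sum_eq_zero]
          · ring
          · intro a _
            apply Finset.sum_eq_zero
            intro b _
            rw [if_neg (fun h' => hG h'.1)]
      have h5 : ∑ a, ∑ b, EP (fr mu k) (d a b) = EP (fr mu k) (fun X => ∑ a, ∑ b, d a b X) := by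
        rw [EP_sum]
        apply Finset.sum_congr rfl
        intro a _
        rw [EP_sum]
      rw [h5]
      simp only [h4]
      rw [EP_smul, EP_sub, EP_const]
      rw [hP1]
      ring
    rw [h3]
    apply le_of_eq
    ring
  rw [EP_sub, EP_add, EP_add, hE1, hE2]
  have hθZ : θ ≤ Zt mu k := by
    rw [hθ]
    unfold Zt
    rw [← Finset.sum_add_sum_compl U]
    have h1 : 0 ≤ ∑ i ∈ U, zt mu k i := Finset.sum_nonneg fun i _ => zt_nonneg hk i
    have h2 : ∑ i ∈ M, (1 - fr mu k i) ≤ ∑ i ∈ Uᶜ, zt mu k i := by
      apply Finset.sum_le_sum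
      intro i hi
      rw [hM, Finset.mem_compl, hU, Finset.mem_filter] at hi
      push Not at hi
      exact one_sub_fr_le' hmu h.hmun (lt_of_le_of_ne (hk i) (hi (Finset.mem_univ _)))
    linarith
  have hq1 : 1 / (2 * (mu:ℝ)) ≤ q := fr_var h.hmu h.hmun hi0lt hi0pos
  have h10 : 3 / (8 * (mu:ℝ) ^ 2) ≤ (1 - P1) * (q / mu) := by
    have h11 : (3:ℝ) / 4 ≤ 1 - P1 := by
      have := h.he2
      linarith
    have h12 : (1:ℝ) / (2 * mu) / mu ≤ q / mu := div_le_div_of_nonneg_right hq1 hmu'.le
    calc (3:ℝ) / (8 * (mu:ℝ) ^ 2) = 3 / 4 * (1 / (2 * mu) / mu) := by field_simp; norm_num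
      _ ≤ (1 - P1) * (q / mu) := mul_le_mul h11 h12 (by positivity) (by linarith)
  have h13 := h.he5
  have h14 := h.he6
  have h15 : (3:ℝ) / (8 * (mu:ℝ) ^ 2) = 1 / (8 * (mu:ℝ) ^ 2) + 1 / (4 * (mu:ℝ) ^ 2) := by
    field_simp; norm_num
  linarith

end Pool.Agent.Helper26.UMDA
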