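import Pool.Agent.Helper26.UMDA.Basic

/-!
Anticoncentration for the number of zeros of one sample.
-/

namespace Pool.Agent.Helper26.UMDA

open Finset

variable {n lam : ℕ}

theorem E1_prod_on (p : Fin n → ℝ) (M : Finset (Fin n)) (g : Fin n → Bool → ℝ) :
    E1 p (fun x => ∏ i ∈ M, g i (x i)) =
      ∏ i ∈ M, (p i * g i true + (1 - p i) * g i false) := by
  classical
  have h := E1_prod p (fun i b => if i ∈ M then g i b else 1)
  have h1 : ∀ x : Fin n → Bool, (∏ i, if i ∈ M then g i (x i) else 1) = ∏ i ∈ M, g i (x i) := by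
    intro x
    rw [Finset.prod_ite_mem]
    simp
  simp only [h1] at h
  rw [h, ← Finset.prod_subset (Finset.subset_univ M)]
  · apply Finset.prod_congr rfl
    intro i hi
    simp [hi]
  · intro i _ hi
    simp [hi]

theorem exp_zc (θ : ℝ) (M : Finset (Fin n)) (x : Fin n → Bool) :
    Real.exp (θ * zc M x) = ∏ i ∈ M, (if x i = true then 1 else Real.exp θ) := by
  unfold zc
  rw [Finset.mul_sum, Real.exp_sum]
  apply Finset.prod_congr rfl
  intro i _
  split_ifs <;> simp

/-- moment generating function -/
theorem E1_exp_zc (p : Fin n → ℝ) (θ : ℝ) (M : Finset (Fin n)) :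
    E1 p (fun x => Real.exp (θ * zc M x)) =
      ∏ i ∈ M, (1 + (1 - p i) * (Real.exp θ - 1)) := by
  simp only [exp_zc]
  rw [E1_prod_on p M (fun _ b => if b = true then 1 else Real.exp θ)]
  apply Finset.prod_congr rfl
  intro i _
  simp
  ring

theorem one_sub_ge_exp {z : ℝ} (h0 : 0 ≤ z) (h1 : z ≤ 1 / 4) : Real.exp (-(2 * z)) ≤ 1 - z := by
  have h2 : 1 + 2 * z ≤ Real.exp (2 * z) := by
    have := Real.add_one_le_exp (2 * z)
    linarith
  rw [Real.exp_neg]
  have hpos : 0 < Real.exp (2 * z) := Real.exp_pos _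
  rw [inv_le_iff_one_le_mul₀ hpos]
  nlinarith

theorem one_sub_ge_exp' {y : ℝ} (h0 : 0 ≤ y) (h1 : y ≤ 1 / 2) :
    Real.exp (-(y + y ^ 2)) ≤ 1 - y := by
  have h2 := Real.quadratic_le_exp_of_nonneg (x := y + y ^ 2) (by positivity)
  rw [Real.exp_neg]
  have hpos : 0 < Real.exp (y + y ^ 2) := Real.exp_pos _
  rw [inv_le_iff_one_le_mul₀ hpos]
  have h3 : (1 - y) * (1 + (y + y ^ 2) + (y + y ^ 2) ^ 2 / 2) ≤ (1 - y) * Real.exp (y + y ^ 2) :=
    mul_le_mul_of_nonneg_left h2 (by linarith)
  have h4 : (1 - y) * (1 + (y + y ^ 2) + (y + y ^ 2) ^ 2 / 2) =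
      1 + y ^ 2 * ((1 - y) * (1 + y) ^ 2 / 2 - y) := by ring
  have h5 : 0 ≤ (1 - y) * (1 + y) ^ 2 / 2 - y := by nlinarith
  nlinarith [sq_nonneg y]

theorem neg_log_ge {a : ℝ} (h0 : 0 ≤ a) (h1 : a ≤ 1 / 2) : a + a ^ 2 / 2 ≤ -Real.log (1 - a) := by
  have h := Real.hasSum_pow_div_log_of_abs_lt_one (x := a) (by rw [abs_of_nonneg h0]; linarith)
  have h2 := sum_le_hasSum (Finset.range 2) (fun i _ => by positivity) h
  simp [Finset.sum_range_succ] at h2
  norm_num at h2
  linarith

/-- the constant of the anticoncentration lemma -/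
noncomputable def p0 : ℝ := Real.exp (-130)

theorem p0_pos : 0 < p0 := Real.exp_pos _

theorem p0_le : p0 ≤ 1 / 131 := by
  unfold p0
  rw [Real.exp_neg]
  have : (131:ℝ) ≤ Real.exp 130 := by
    have := Real.add_one_le_exp (130:ℝ)
    linarith
  rw [inv_eq_one_div]
  exact one_div_le_one_div_of_le (by norm_num) this

theorem zc_le_prob {p : Fin n → ℝ} (hp : Valid p) (M : Finset (Fin n))
    (hM : ∀ i ∈ M, 1 - p i ≤ 1 / 4) {m : ℝ} (hm : m = ∑ i ∈ M, (1 - p i)) :
    p0 ≤ E1 p (fun x => if zc M x ≤ max 0 (m - 2) then 1 else 0) := by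
  have hz0 : ∀ i, 0 ≤ 1 - p i := fun i => by linarith [(hp i).2]
  rcases lt_or_ge m 64 with hm64 | hm64
  · -- small mean
    have h1 : E1 p (fun x => ∏ i ∈ M, (if x i = true then (1:ℝ) else 0)) = ∏ i ∈ M, p i := by
      rw [E1_prod_on p M (fun _ b => if b = true then 1 else 0)]
      apply Finset.prod_congr rfl
      intro i _
      simp
    have h2 : E1 p (fun x => ∏ i ∈ M, (if x i = true then (1:ℝ) else 0)) ≤
        E1 p (fun x => if zc M x ≤ max 0 (m - 2) then 1 else 0) := by
      apply E1_mono hp
      intro x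
      by_cases hx : ∀ i ∈ M, x i = true
      · have h3 : zc M x = 0 := by
          unfold zc
          apply Finset.sum_eq_zero
          intro i hi
          simp [hx i hi]
        rw [h3]
        simp only [le_max_iff, le_refl, true_or, if_true]
        apply Finset.prod_le_one
        · intro i _; split_ifs <;> norm_num
        · intro i _; split_ifs <;> norm_num
      · push Not at hx
        obtain ⟨i, hi, hxi⟩ := hx
        rw [Finset.prod_eq_zero hi (by simp [hxi])]
        split_ifs <;> norm_num
    refine le_trans ?_ h2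
    rw [h1]
    have h4 : Real.exp (-(2 * m)) ≤ ∏ i ∈ M, p i := by
      rw [hm, Finset.mul_sum, ← Finset.sum_neg_distrib, Real.exp_sum]
      apply Finset.prod_le_prod
      · intro i _; exact (Real.exp_pos _).le
      · intro i hi
        have := one_sub_ge_exp (hz0 i) (hM i hi)
        linarith
    refine le_trans ?_ h4
    unfold p0
    apply Real.exp_le_exp.mpr
    linarith
  · -- large mean
    have hmax : max 0 (m - 2) = m - 2 := max_eq_right (by linarith)
    rw [hmax]
    set u := Real.sqrt m with hu
    have hu8 : 8 ≤ u := by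
      rw [hu]
      apply Real.le_sqrt_of_sq_le
      norm_num
      exact hm64
    have hmu : m = u ^ 2 := (Real.sq_sqrt (by linarith)).symm
    set a := 4 / u with ha
    have ha0 : 0 < a := by positivity
    have ha1 : a ≤ 1 / 2 := by
      rw [ha, div_le_div_iff₀ (by linarith) (by norm_num)]
      linarith
    have hau : a * u = 4 := by
      rw [ha]; field_simp
    set t := -Real.log (1 - a) with ht
    have hexpt : Real.exp (-t) = 1 - a := by
      rw [ht, neg_neg, Real.exp_log (by linarith)]
    have htge : a + a ^ 2 / 2 ≤ t := neg_log_ge ha0.le ha1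
    have ht0 : 0 < t := lt_of_lt_of_le (by positivity) htge
    set EY := E1 p (fun x => Real.exp (-t * zc M x)) with hEY
    have hEYval : EY = ∏ i ∈ M, (1 - (1 - p i) * a) := by
      rw [hEY, E1_exp_zc p (-t) M, hexpt]
      apply Finset.prod_congr rfl
      intro i _
      ring
    have hEYpos : 0 < EY := by
      rw [hEYval]
      apply Finset.prod_pos
      intro i hi
      have := hM i hi
      have := hz0 i
      nlinarith
    -- lower bound for EY
    have hEYge : Real.exp (-(4 * u + 4)) ≤ EY := by
      have h1 : Real.exp (-(∑ i ∈ M, ((1 - p i) * a + ((1 - p i) * a) ^ 2))) ≤ EY := by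
        rw [hEYval, ← Finset.sum_neg_distrib, Real.exp_sum]
        apply Finset.prod_le_prod
        · intro i _; exact (Real.exp_pos _).le
        · intro i hi
          apply one_sub_ge_exp'
          · exact mul_nonneg (hz0 i) ha0.le
          · have := hM i hi
            have := hz0 i
            nlinarith
      refine le_trans ?_ h1
      apply Real.exp_le_exp.mpr
      rw [neg_le_neg_iff]
      have h2 : ∑ i ∈ M, ((1 - p i) * a + ((1 - p i) * a) ^ 2) ≤
          ∑ i ∈ M, ((1 - p i) * (a + a ^ 2 / 4)) := by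
        apply Finset.sum_le_sum
        intro i hi
        have h3 := hM i hi
        have h4 := hz0 i
        have h5 : (1 - p i) ^ 2 ≤ (1 - p i) * (1 / 4) := by nlinarith
        nlinarith [sq_nonneg a]
      refine h2.trans ?_
      rw [← Finset.sum_mul, ← hm, hmu]
      have : u ^ 2 * (a + a ^ 2 / 4) = 4 * u + 4 := by
        have : u ^ 2 * (a + a ^ 2 / 4) = u * (a * u) + (a * u) ^ 2 / 4 := by ring
        rw [this, hau]; ring
      linarith
    -- the threshold
    have hthr : Real.exp (-t * (m - 2)) ≤ EY / 2 := by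
      have h1 : Real.exp (-t * (m - 2)) ≤ Real.exp (-(4 * u + 6)) := by
        apply Real.exp_le_exp.mpr
        have h2 : (a + a ^ 2 / 2) * (m - 2) ≤ t * (m - 2) :=
          mul_le_mul_of_nonneg_right htge (by linarith)
        have h3 : (a + a ^ 2 / 2) * (m - 2) = 4 * u + 8 - 2 * a - a ^ 2 := by
          rw [hmu]
          have : (a + a ^ 2 / 2) * (u ^ 2 - 2) = u * (a * u) + (a * u) ^ 2 / 2 - 2 * a - a ^ 2 := by
            ring
          rw [this, hau]; ring
        nlinarith
      have h4 : Real.exp (-(4 * u + 6)) = Real.exp (-(4 * u + 4)) * Real.exp (-2) := by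
        rw [← Real.exp_add]; ring_nf
      have h5 : Real.exp (-2) ≤ 1 / 2 := by
        rw [Real.exp_neg]
        have := Real.add_one_le_exp (2:ℝ)
        rw [inv_eq_one_div]
        apply one_div_le_one_div_of_le (by norm_num)
        linarith
      calc Real.exp (-t * (m - 2)) ≤ Real.exp (-(4 * u + 4)) * Real.exp (-2) := by
            rw [← h4]; exact h1
        _ ≤ EY * (1 / 2) := mul_le_mul hEYge h5 (Real.exp_pos _).le hEYpos.le
        _ = EY / 2 := by ring
    -- second moment
    have hEY2 : E1 p (fun x => (Real.exp (-t * zc M x)) ^ 2) ≤ EY ^ 2 * Real.exp 32 := by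
      have h1 : ∀ x, (Real.exp (-t * zc M x)) ^ 2 = Real.exp ((-(2 * t)) * zc M x) := by
        intro x
        rw [← Real.exp_nat_mul]
        congr 1
        push_cast
        ring
      simp only [h1]
      rw [E1_exp_zc]
      have h2 : Real.exp (-(2 * t)) = (1 - a) ^ 2 := by
        rw [← hexpt, ← Real.exp_nat_mul]
        congr 1
        push_cast
        ring
      rw [h2, hEYval]
      have h3 : Real.exp 32 = Real.exp (∑ i ∈ M, (1 - p i) * (2 * a ^ 2)) := by
        rw [← Finset.sum_mul, ← hm, hmu]
        congr 1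
        have : u ^ 2 * (2 * a ^ 2) = 2 * (a * u) ^ 2 := by ring
        rw [this, hau]; norm_num
      rw [h3, Real.exp_sum, ← Finset.prod_pow, ← Finset.prod_mul_distrib]
      apply Finset.prod_le_prod
      · intro i hi
        have := hM i hi
        have := hz0 i
        nlinarith [sq_nonneg a, sq_nonneg (1 - a)]
      · intro i hi
        have h4 := hM i hi
        have h5 := hz0 i
        set z := 1 - p i with hz
        have h6 : 1 + z * (2 * a ^ 2) ≤ Real.exp (z * (2 * a ^ 2)) := by
          have := Real.add_one_le_exp (z * (2 * a ^ 2))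
          linarith
        have h7 : 0 ≤ (1 - z * a) ^ 2 := sq_nonneg _
        have h8 : (1 - z * a) ^ 2 * (1 + z * (2 * a ^ 2)) ≤
            (1 - z * a) ^ 2 * Real.exp (z * (2 * a ^ 2)) := mul_le_mul_of_nonneg_left h6 h7
        refine le_trans ?_ h8
        have hza : z * a ≤ 1 / 8 := by nlinarith
        have hza0 : 0 ≤ z * a := mul_nonneg h5 ha0.le
        have h9 : 1 ≤ 2 * (1 - z * a) ^ 2 := by nlinarith
        have h10 : 0 ≤ z * a ^ 2 := by positivity
        nlinarith [mul_le_mul_of_nonneg_left h9 h10, sq_nonneg (z * a)]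
    -- Cauchy Schwarz
    set P := E1 p (fun x => if zc M x ≤ m - 2 then (1:ℝ) else 0) with hP
    have hcs := E1_cs hp (fun x => Real.exp (-t * zc M x))
      (fun x => if zc M x ≤ m - 2 then (1:ℝ) else 0)
    have h1 : E1 p (fun x => (if zc M x ≤ m - 2 then (1:ℝ) else 0) ^ 2) = P := by
      rw [hP]
      congr 1
      funext x
      split_ifs <;> norm_num
    rw [h1] at hcs
    have h2 : EY ≤ EY / 2 + E1 p (fun x => Real.exp (-t * zc M x) *
        (if zc M x ≤ m - 2 then (1:ℝ) else 0)) := by
      have h3 : EY ≤ E1 p (fun x => EY / 2 + Real.exp (-t * zc M x) *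
        (if zc M x ≤ m - 2 then (1:ℝ) else 0)) := by
        conv_lhs => rw [hEY]
        apply E1_mono hp
        intro x
        by_cases hx : zc M x ≤ m - 2
        · simp only [hx, if_true, mul_one]
          linarith
        · simp only [hx, if_false, mul_zero, add_zero]
          refine le_trans ?_ hthr
          apply Real.exp_le_exp.mpr
          have : m - 2 < zc M x := not_le.mp hx
          nlinarith
      rw [E1_add] at h3
      have h4 : E1 p (fun _ => EY / 2) = EY / 2 := by
        have := E1_smul p (EY / 2) (fun _ => 1)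
        simp only [mul_one, E1_one] at this
        exact this
      rw [h4] at h3
      exact h3
    have hPnn : 0 ≤ P := E1_nonneg hp (fun x => by split_ifs <;> norm_num)
    have h5 : (EY / 2) ^ 2 ≤ EY ^ 2 * Real.exp 32 * P := by
      calc (EY / 2) ^ 2 ≤ (E1 p (fun x => Real.exp (-t * zc M x) *
        (if zc M x ≤ m - 2 then (1:ℝ) else 0))) ^ 2 := by
            apply pow_le_pow_left₀ (by linarith)
            linarith
        _ ≤ _ := hcs
        _ ≤ _ := mul_le_mul_of_nonneg_right hEY2 hPnn
    have h6 : 1 / 4 ≤ Real.exp 32 * P := by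
      have h7 : EY ^ 2 * (1 / 4) ≤ EY ^ 2 * (Real.exp 32 * P) := by
        calc EY ^ 2 * (1 / 4) = (EY / 2) ^ 2 := by ring
          _ ≤ _ := h5
          _ = _ := by ring
      exact le_of_mul_le_mul_left h7 (by positivity)
    have h8 : p0 * Real.exp 32 ≤ 1 / 4 := by
      unfold p0
      rw [← Real.exp_add]
      have : Real.exp (-130 + 32) ≤ Real.exp (-4) := Real.exp_le_exp.mpr (by norm_num)
      refine this.trans ?_
      rw [Real.exp_neg, inv_eq_one_div]
      apply one_div_le_one_div_of_le (by norm_num)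
      have := Real.add_one_le_exp (4:ℝ)
      linarith
    have h9 : p0 * Real.exp 32 ≤ P * Real.exp 32 := by linarith
    exact le_of_mul_le_mul_right h9 (Real.exp_pos _)

end Pool.Agent.Helper26.UMDA
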