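import Pool.Agent.Helper26.UMDA.Tail

/-!
Selection, states and the potential function.
-/

namespace Pool.Agent.Helper26.UMDA

open Finset

variable {n lam : ℕ}

/-- number of ones -/
def om (x : Fin n → Bool) : ℕ := (Finset.univ.filter fun i => x i = true).card

theorem zc_univ (x : Fin n → Bool) : zc Finset.univ x = n - om x := by
  unfold zc om
  rw [Finset.sum_ite]
  simp only [Finset.sum_const_zero, zero_add, Finset.sum_const, nsmul_eq_mul, mul_one]
  have h := Finset.card_filter_add_card_filter_not (s := (Finset.univ : Finset (Fin n)))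
    (fun i => x i = true)
  rw [Finset.card_univ, Fintype.card_fin] at h
  have h2 : ((Finset.univ.filter fun i => x i = true).card : ℝ) +
    ((Finset.univ.filter fun i => ¬ x i = true).card : ℝ) = n := by exact_mod_cast h
  linarith

/-- a best set of `mu` samples -/
def IsBest (mu : ℕ) (X : Fin lam → Fin n → Bool) (T : Finset (Fin lam)) : Prop :=
  T.card = mu ∧ ∀ a ∈ T, ∀ b, b ∉ T → om (X b) ≤ om (X a)

theorem IsBest.zc_le {mu : ℕ} {X : Fin lam → Fin n → Bool} {T : Finset (Fin lam)}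
    (h : IsBest mu X T) : ∀ a ∈ T, ∀ b, b ∉ T →
      zc Finset.univ (X a) ≤ zc Finset.univ (X b) := by
  intro a ha b hb
  rw [zc_univ, zc_univ]
  have := h.2 a ha b hb
  have : (om (X b) : ℝ) ≤ om (X a) := by exact_mod_cast this
  linarith

theorem sum_best_le {f : Fin lam → ℝ} {T T' : Finset (Fin lam)} (hc : T.card = T'.card)
    (h : ∀ a ∈ T, ∀ b, b ∉ T → f a ≤ f b) : ∑ j ∈ T, f j ≤ ∑ j ∈ T', f j := by
  classical
  have h1 : ∑ j ∈ T, f j = ∑ j ∈ T ∩ T', f j + ∑ j ∈ T \ T', f j :=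
    (Finset.sum_inter_add_sum_sdiff T T' f).symm
  have h2 : ∑ j ∈ T', f j = ∑ j ∈ T ∩ T', f j + ∑ j ∈ T' \ T, f j := by
    rw [Finset.inter_comm]
    exact (Finset.sum_inter_add_sum_sdiff T' T f).symm
  have h3 : (T \ T').card = (T' \ T).card := by
    have := Finset.card_sdiff_add_card_inter T T'
    have := Finset.card_sdiff_add_card_inter T' T
    rw [Finset.inter_comm] at this
    omega
  rw [h1, h2]
  rcases (T \ T').eq_empty_or_nonempty with he | hne
  · have he' : T' \ T = ∅ := by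
      rw [← Finset.card_eq_zero, ← h3, he]
      simp
    rw [he, he']
  · obtain ⟨a, ha, hmax⟩ := Finset.exists_max_image (T \ T') f hne
    have haT : a ∈ T := (Finset.mem_sdiff.mp ha).1
    have h4 : ∑ j ∈ T \ T', f j ≤ (T \ T').card • f a :=
      Finset.sum_le_card_nsmul _ _ _ hmax
    have h5 : (T' \ T).card • f a ≤ ∑ j ∈ T' \ T, f j := by
      apply Finset.card_nsmul_le_sum
      intro b hb
      exact h a haT b (Finset.mem_sdiff.mp hb).2
    rw [h3] at h4
    linarith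

theorem sum_best_avg {f : Fin lam → ℝ} {T : Finset (Fin lam)} {mu : ℕ} (hc : T.card = mu)
    (h : ∀ a ∈ T, ∀ b, b ∉ T → f a ≤ f b) :
    (lam : ℝ) * ∑ j ∈ T, f j ≤ mu * ∑ j, f j := by
  classical
  rcases T.eq_empty_or_nonempty with he | hne
  · subst he
    simp at hc
    simp [← hc]
  · obtain ⟨a, haT, hmax⟩ := Finset.exists_max_image T f hne
    have h4 : ∑ j ∈ T, f j ≤ T.card • f a := Finset.sum_le_card_nsmul _ _ _ hmax
    have h5 : Tᶜ.card • f a ≤ ∑ j ∈ Tᶜ, f j := by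
      apply Finset.card_nsmul_le_sum
      intro b hb
      exact h a haT b (Finset.mem_compl.mp hb)
    have h6 : ∑ j, f j = ∑ j ∈ T, f j + ∑ j ∈ Tᶜ, f j := (Finset.sum_add_sum_compl T f).symm
    have h7 : (Tᶜ.card : ℝ) = lam - mu := by
      have := Finset.card_add_card_compl T
      rw [Fintype.card_fin, hc] at this
      have : (mu : ℝ) + Tᶜ.card = lam := by exact_mod_cast this
      linarith
    have h8 : (0:ℝ) ≤ lam - mu := by rw [← h7]; exact Nat.cast_nonneg _
    rw [hc, nsmul_eq_mul] at h4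
    rw [nsmul_eq_mul, h7] at h5
    have h9 : (lam - mu : ℝ) * ∑ j ∈ T, f j ≤ (lam - mu) * (mu * f a) :=
      mul_le_mul_of_nonneg_left h4 h8
    have h10 : (mu : ℝ) * ((lam - mu) * f a) ≤ mu * ∑ j ∈ Tᶜ, f j :=
      mul_le_mul_of_nonneg_left h5 (Nat.cast_nonneg _)
    rw [h6]
    nlinarith

/-- restriction to the borders -/
noncomputable def clip (n : ℕ) (q : ℝ) : ℝ := max (1 / n) (min (1 - 1 / n) q)

/-- number of ones in the position `i` among the selected samples -/
def cnt (T : Finset (Fin lam)) (X : Fin lam → Fin n → Bool) (i : Fin n) : ℕ :=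
  (T.filter fun j => X j i = true).card

/-- frequency vector of a state -/
noncomputable def fr (mu : ℕ) (k : Fin n → ℕ) : Fin n → ℝ := fun i => clip n ((k i : ℝ) / mu)

/-- fraction of zeros -/
noncomputable def zt (mu : ℕ) (k : Fin n → ℕ) (i : Fin n) : ℝ := 1 - (k i : ℝ) / mu

/-- total fraction of zeros -/
noncomputable def Zt (mu : ℕ) (k : Fin n → ℕ) : ℝ := ∑ i, zt mu k i

/-- the wrong positions -/
def Rs (k : Fin n → ℕ) : Finset (Fin n) := Finset.univ.filter fun i => k i = 0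

theorem mem_Rs {k : Fin n → ℕ} {i : Fin n} : i ∈ Rs k ↔ k i = 0 := by
  simp [Rs]

theorem zt_nonneg {mu : ℕ} {k : Fin n → ℕ} (hk : ∀ i, k i ≤ mu) (i : Fin n) :
    0 ≤ zt mu k i := by
  unfold zt
  have h1 : (k i : ℝ) ≤ mu := by exact_mod_cast hk i
  have h2 : (k i : ℝ) / mu ≤ 1 := div_le_one_of_le₀ h1 (Nat.cast_nonneg _)
  linarith

theorem zt_le_one (mu : ℕ) (k : Fin n → ℕ) (i : Fin n) : zt mu k i ≤ 1 := by
  unfold zt
  have : (0:ℝ) ≤ (k i : ℝ) / mu := by positivity
  linarith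

theorem Zt_nonneg {mu : ℕ} {k : Fin n → ℕ} (hk : ∀ i, k i ≤ mu) : 0 ≤ Zt mu k :=
  Finset.sum_nonneg fun i _ => zt_nonneg hk i

theorem Zt_le (mu : ℕ) (k : Fin n → ℕ) : Zt mu k ≤ n := by
  unfold Zt
  calc ∑ i, zt mu k i ≤ ∑ _i : Fin n, (1:ℝ) := Finset.sum_le_sum fun i _ => zt_le_one mu k i
    _ = n := by simp

/-- the mass of the positions that are not wrong -/
noncomputable def wt (mu : ℕ) (k : Fin n → ℕ) : ℝ := ∑ i ∈ (Rs k)ᶜ, zt mu k i

theorem Zt_eq (mu : ℕ) (k : Fin n → ℕ) : Zt mu k = (Rs k).card + wt mu k := by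
  unfold Zt wt
  rw [← Finset.sum_add_sum_compl (Rs k)]
  congr 1
  rw [Finset.sum_congr rfl (g := fun _ => (1:ℝ))]
  · simp
  · intro i hi
    rw [mem_Rs] at hi
    simp [zt, hi]

theorem wt_nonneg {mu : ℕ} {k : Fin n → ℕ} (hk : ∀ i, k i ≤ mu) : 0 ≤ wt mu k :=
  Finset.sum_nonneg fun i _ => zt_nonneg hk i

theorem cnt_le {mu : ℕ} {T : Finset (Fin lam)} (hT : T.card = mu) (X : Fin lam → Fin n → Bool)
    (i : Fin n) : cnt T X i ≤ mu := by
  unfold cnt
  rw [← hT]
  exact Finset.card_filter_le _ _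

/-- zeros of the position `i` among the selected samples -/
theorem zt_cnt {mu : ℕ} (hmu : 0 < mu) {T : Finset (Fin lam)} (hT : T.card = mu)
    (X : Fin lam → Fin n → Bool) (i : Fin n) :
    zt mu (cnt T X) i = (1 / mu) * ∑ j ∈ T, (if X j i = true then (0:ℝ) else 1) := by
  have hmu' : (mu : ℝ) ≠ 0 := by positivity
  unfold zt cnt
  rw [Finset.sum_ite]
  simp only [Finset.sum_const_zero, zero_add, Finset.sum_const, nsmul_eq_mul, mul_one]
  have h := Finset.card_filter_add_card_filter_not (s := T)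
    (fun j => X j i = true)
  rw [hT] at h
  have h2 : ((T.filter fun j => X j i = true).card : ℝ) +
    ((T.filter fun j => ¬ X j i = true).card : ℝ) = mu := by exact_mod_cast h
  field_simp
  linarith

theorem Zt_cnt {mu : ℕ} (hmu : 0 < mu) {T : Finset (Fin lam)} (hT : T.card = mu)
    (X : Fin lam → Fin n → Bool) :
    Zt mu (cnt T X) = (1 / mu) * ∑ j ∈ T, zc Finset.univ (X j) := by
  unfold Zt
  simp_rw [zt_cnt hmu hT]
  rw [← Finset.mul_sum, Finset.sum_comm]
  rfl

theorem Zt_cnt_le_of_card {mu : ℕ} (hmu : 0 < mu) {T T' : Finset (Fin lam)}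
    {X : Fin lam → Fin n → Bool} (hT : IsBest mu X T) (hT' : T'.card = mu) :
    Zt mu (cnt T X) ≤ (1 / mu) * ∑ j ∈ T', zc Finset.univ (X j) := by
  rw [Zt_cnt hmu hT.1]
  apply mul_le_mul_of_nonneg_left _ (by positivity)
  exact sum_best_le (hT.1.trans hT'.symm) hT.zc_le

theorem Zt_cnt_le_avg {mu : ℕ} (hmu : 0 < mu) (hlam : 0 < lam) {T : Finset (Fin lam)}
    {X : Fin lam → Fin n → Bool} (hT : IsBest mu X T) :
    Zt mu (cnt T X) ≤ (1 / lam) * ∑ j, zc Finset.univ (X j) := by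
  rw [Zt_cnt hmu hT.1]
  have h := sum_best_avg (f := fun j => zc Finset.univ (X j)) hT.1 hT.zc_le
  have h1 : (0:ℝ) < mu := by exact_mod_cast hmu
  have h2 : (0:ℝ) < lam := by exact_mod_cast hlam
  rw [div_mul_eq_mul_div, div_mul_eq_mul_div, one_mul, one_mul, div_le_div_iff₀ h1 h2]
  linarith

theorem zc_split (R : Finset (Fin n)) (x : Fin n → Bool) :
    zc Finset.univ x = zc R x + zc Rᶜ x := by
  unfold zc
  exact (Finset.sum_add_sum_compl R _).symm

theorem zc_le_card (R : Finset (Fin n)) (x : Fin n → Bool) : zc R x ≤ R.card := by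
  unfold zc
  calc ∑ i ∈ R, (if x i = true then (0:ℝ) else 1) ≤ ∑ _i ∈ R, (1:ℝ) := by
        apply Finset.sum_le_sum
        intro i _
        split_ifs <;> norm_num
    _ = R.card := by simp

/-! ### the levels -/

noncomputable def zl (A : ℝ) : ℕ → ℝ
  | 0 => 1
  | t + 1 => Real.exp (-(A / zl A t))

theorem zl_pos (A : ℝ) (t : ℕ) : 0 < zl A t := by
  cases t with
  | zero => simp [zl]
  | succ t => simp only [zl]; exact Real.exp_pos _

theorem zl_le_one {A : ℝ} (hA : 0 ≤ A) (t : ℕ) : zl A t ≤ 1 := by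
  cases t with
  | zero => simp [zl]
  | succ t =>
    simp only [zl]
    rw [Real.exp_le_one_iff]
    have := zl_pos A t
    have : 0 ≤ A / zl A t := div_nonneg hA this.le
    linarith

theorem zl_le_quarter {A : ℝ} (hA : 3 ≤ A) {t : ℕ} (ht : 1 ≤ t) : zl A t ≤ 1 / 4 := by
  obtain ⟨t, rfl⟩ : ∃ t', t = t' + 1 := ⟨t - 1, by omega⟩
  simp only [zl]
  have h1 := zl_pos A t
  have h2 := zl_le_one (by linarith : 0 ≤ A) t
  have h3 : 3 ≤ A / zl A t := by
    rw [le_div_iff₀ h1]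
    nlinarith
  calc Real.exp (-(A / zl A t)) ≤ Real.exp (-3) := Real.exp_le_exp.mpr (by linarith)
    _ ≤ 1 / 4 := by
      rw [Real.exp_neg, inv_eq_one_div]
      apply one_div_le_one_div_of_le (by norm_num)
      have := Real.add_one_le_exp (3:ℝ)
      linarith

open Classical in
/-- the level of a state -/
noncomputable def lvl (A : ℝ) (J mu : ℕ) (k : Fin n → ℕ) : ℕ :=
  Nat.findGreatest (fun t => ∀ i, k i ≠ 0 → zt mu k i ≤ zl A t) J

theorem lvl_le (A : ℝ) (J mu : ℕ) (k : Fin n → ℕ) : lvl A J mu k ≤ J := by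
  classical
  exact Nat.findGreatest_le J

theorem lvl_spec (A : ℝ) (J mu : ℕ) (k : Fin n → ℕ) :
    ∀ i, k i ≠ 0 → zt mu k i ≤ zl A (lvl A J mu k) := by
  classical
  have h := Nat.findGreatest_spec (P := fun t => ∀ i, k i ≠ 0 → zt mu k i ≤ zl A t)
    (m := 0) (n := J) (Nat.zero_le _) (fun i _ => by simpa [zl] using zt_le_one mu k i)
  exact h

theorem le_lvl {A : ℝ} {J mu : ℕ} {k : Fin n → ℕ} {t : ℕ} (ht : t ≤ J)
    (h : ∀ i, k i ≠ 0 → zt mu k i ≤ zl A t) : t ≤ lvl A J mu k := by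
  classical
  exact Nat.le_findGreatest ht h

/-- all frequencies are at the borders -/
def Border (mu : ℕ) (k : Fin n → ℕ) : Prop := ∀ i, k i = 0 ∨ k i = mu

/-- coefficient -/
noncomputable def bet (J n lam : ℕ) (L : ℝ) : ℝ := (J + 2) * lam * L / n + 2 / (n:ℝ) ^ 3

/-- the excursion part of the potential -/
noncomputable def Psi (lam : ℕ) (s A : ℝ) (J mu : ℕ) (k : Fin n → ℕ) : ℝ :=
  (n * Real.exp (-(s / 2 * lam * lvl A J mu k)) + bet J n lam (Rs k).card) *
    Real.exp (s * lam * wt mu k)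

open Classical in
/-- the potential -/
noncomputable def Phi (lam : ℕ) (s A : ℝ) (J mu : ℕ) (k : Fin n → ℕ) : ℝ :=
  if Border mu k then ((Rs k).card : ℝ)
  else min (Zt mu k) ((Rs k).card + Psi lam s A J mu k)

theorem Border.wt_eq {mu : ℕ} (hmu : 0 < mu) {k : Fin n → ℕ} (h : Border mu k) :
    wt mu k = 0 := by
  unfold wt
  apply Finset.sum_eq_zero
  intro i hi
  rw [Finset.mem_compl, mem_Rs] at hi
  have h1 := (h i).resolve_left hi
  unfold zt
  rw [h1, div_self (by positivity)]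
  ring

theorem Phi_le_Zt (lam : ℕ) (s A : ℝ) (J : ℕ) {mu : ℕ} {k : Fin n → ℕ} (hk : ∀ i, k i ≤ mu) :
    Phi lam s A J mu k ≤ Zt mu k := by
  unfold Phi
  split_ifs with h
  · rw [Zt_eq]
    have := wt_nonneg hk
    linarith
  · exact min_le_left _ _

theorem bet_nonneg (J n lam : ℕ) {L : ℝ} (hL : 0 ≤ L) : 0 ≤ bet J n lam L := by
  unfold bet
  positivity

theorem Psi_nonneg (lam : ℕ) (s A : ℝ) (J mu : ℕ) (k : Fin n → ℕ) :
    0 ≤ Psi lam s A J mu k := by
  unfold Psi
  apply mul_nonneg _ (Real.exp_pos _).le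
  apply add_nonneg
  · positivity
  · exact bet_nonneg _ _ _ (Nat.cast_nonneg _)

theorem Phi_nonneg (lam : ℕ) (s A : ℝ) (J : ℕ) {mu : ℕ} {k : Fin n → ℕ} (hk : ∀ i, k i ≤ mu) :
    0 ≤ Phi lam s A J mu k := by
  unfold Phi
  split_ifs with h
  · positivity
  · apply le_min (Zt_nonneg hk)
    have := Psi_nonneg lam s A J mu k
    positivity

end Pool.Agent.Helper26.UMDA
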