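import Pool.Agent.Helper26.UMDA.Single

/-!
The main tail estimate for populations.
-/

namespace Pool.Agent.Helper26.UMDA

open Finset

variable {n lam : ℕ}

/-- number of samples whose number of zeros in `M` is at most `θ` -/
noncomputable def good (M : Finset (Fin n)) (θ : ℝ) (X : Fin lam → Fin n → Bool) :
    Finset (Fin lam) := Finset.univ.filter fun j => zc M (X j) ≤ θ

theorem prob_good_le {p : Fin n → ℝ} (hp : Valid p) (M : Finset (Fin n)) (θ : ℝ) (mu : ℕ)
    (hmu : (mu : ℝ) ≤ p0 / 8 * lam)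
    (hq : p0 ≤ E1 p (fun x => if zc M x ≤ θ then 1 else 0)) :
    EP p (fun X : Fin lam → Fin n → Bool => if (good M θ X).card ≤ mu then (1:ℝ) else 0) ≤
      Real.exp (-(p0 / 4 * lam)) := by
  have h1 : ∀ X : Fin lam → Fin n → Bool, (if (good M θ X).card ≤ mu then (1:ℝ) else 0) ≤
      2 ^ mu * ∏ j, (if zc M (X j) ≤ θ then (1/2 : ℝ) else 1) := by
    intro X
    have h2 : ∏ j, (if zc M (X j) ≤ θ then (1/2 : ℝ) else 1) = (1/2) ^ (good M θ X).card := by
      rw [Finset.prod_ite]
      simp [good]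
    rw [h2]
    split_ifs with h
    · have h3 : ((1:ℝ)/2) ^ mu ≤ (1/2) ^ (good M θ X).card :=
        pow_le_pow_of_le_one (by norm_num) (by norm_num) h
      calc (1:ℝ) = 2 ^ mu * (1/2) ^ mu := by rw [← mul_pow]; norm_num
        _ ≤ _ := mul_le_mul_of_nonneg_left h3 (by positivity)
    · positivity
  refine (EP_mono hp h1).trans ?_
  rw [EP_smul, EP_prod p (fun _ x => if zc M x ≤ θ then (1/2 : ℝ) else 1)]
  set q := E1 p (fun x => if zc M x ≤ θ then (1:ℝ) else 0) with hqdef
  have h3 : E1 p (fun x => if zc M x ≤ θ then (1/2 : ℝ) else 1) = 1 - q / 2 := by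
    have h4 : (fun x => if zc M x ≤ θ then (1/2 : ℝ) else 1) =
        (fun x => 1 + (-1/2) * (if zc M x ≤ θ then (1:ℝ) else 0)) := by
      funext x
      split_ifs <;> norm_num
    rw [h4, E1_add, E1_smul, E1_one, ← hqdef]
    ring
  rw [Finset.prod_const, h3, Finset.card_univ, Fintype.card_fin]
  have hq1 : q ≤ 1 := by
    have := E1_mono hp (F := fun x => if zc M x ≤ θ then (1:ℝ) else 0) (G := fun _ => 1)
      (fun x => by split_ifs <;> norm_num)
    rw [E1_one] at this
    exact this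
  have h5 : (1 - q / 2) ^ lam ≤ Real.exp (-(p0 / 2 * lam)) := by
    have h6 : 1 - q / 2 ≤ Real.exp (-(p0 / 2)) := by
      have := Real.add_one_le_exp (-(p0 / 2))
      linarith
    calc (1 - q / 2) ^ lam ≤ (Real.exp (-(p0 / 2))) ^ lam :=
          pow_le_pow_left₀ (by linarith) h6 _
      _ = _ := by
        rw [← Real.exp_nat_mul]
        congr 1
        ring
  have h7 : (2:ℝ) ^ mu ≤ Real.exp (p0 / 8 * lam) := by
    have h8 : (2:ℝ) ≤ Real.exp 1 := by
      have := Real.add_one_le_exp (1:ℝ)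
      linarith
    calc (2:ℝ) ^ mu ≤ (Real.exp 1) ^ mu := pow_le_pow_left₀ (by norm_num) h8 _
      _ = Real.exp mu := by rw [← Real.exp_nat_mul]; simp
      _ ≤ _ := Real.exp_le_exp.mpr hmu
  calc (2:ℝ) ^ mu * (1 - q / 2) ^ lam ≤
        Real.exp (p0 / 8 * lam) * Real.exp (-(p0 / 2 * lam)) :=
        mul_le_mul h7 h5 (pow_nonneg (by linarith) _) (Real.exp_pos _).le
    _ = Real.exp (-(3 / 8 * (p0 * lam))) := by
        rw [← Real.exp_add]
        congr 1
        ring
    _ ≤ _ := by
        apply Real.exp_le_exp.mpr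
        have : 0 ≤ p0 * lam := mul_nonneg p0_pos.le (Nat.cast_nonneg _)
        linarith

/-- the exponential moment of the zeros, on the event that there are few good samples -/
theorem exp_tail {p : Fin n → ℝ} (hp : Valid p) (M : Finset (Fin n))
    (hM : ∀ i ∈ M, 1 - p i ≤ 1 / 4) {v s : ℝ}
    (hm : ∑ i ∈ M, (1 - p i) ≤ v + 1) (mu : ℕ) (hmu : (mu : ℝ) ≤ p0 / 8 * lam)
    (hs0 : 0 < s) (hs1 : 2 * s ≤ 1) (hs : 2 * s + 2 * s ^ 2 * (v + 1) ≤ p0 / 8) :
    EP p (fun X : Fin lam → Fin n → Bool => Real.exp (s * ∑ j, zc M (X j)) *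
      (if (good M (max 0 (v - 1)) X).card ≤ mu then (1:ℝ) else 0)) ≤
      Real.exp (s * lam * (v - 1)) := by
  have hz0 : ∀ i, 0 ≤ 1 - p i := fun i => by linarith [(hp i).2]
  set θ := max 0 (v - 1) with hθ
  have hq : p0 ≤ E1 p (fun x => if zc M x ≤ θ then 1 else 0) := by
    refine (zc_le_prob hp M hM rfl).trans ?_
    apply E1_mono hp
    intro x
    have h1 : max 0 ((∑ i ∈ M, (1 - p i)) - 2) ≤ θ := by
      apply max_le_max le_rfl
      linarith
    by_cases hx : zc M x ≤ max 0 ((∑ i ∈ M, (1 - p i)) - 2)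
    · rw [if_pos hx, if_pos (hx.trans h1)]
    · rw [if_neg hx]
      split_ifs <;> norm_num
  have hbad := prob_good_le (lam := lam) hp M θ mu hmu hq
  have hcs := EP_cs hp (fun X : Fin lam → Fin n → Bool => Real.exp (s * ∑ j, zc M (X j)))
    (fun X => if (good M θ X).card ≤ mu then (1:ℝ) else 0)
  have h1 : EP p (fun X : Fin lam → Fin n → Bool =>
      (if (good M θ X).card ≤ mu then (1:ℝ) else 0) ^ 2) =
      EP p (fun X : Fin lam → Fin n → Bool =>
        if (good M θ X).card ≤ mu then (1:ℝ) else 0) := by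
    congr 1
    funext X
    split_ifs <;> norm_num
  rw [h1] at hcs
  have h2 : EP p (fun X : Fin lam → Fin n → Bool => (Real.exp (s * ∑ j, zc M (X j))) ^ 2) ≤
      Real.exp (lam * ((v + 1) * (2 * s + 4 * s ^ 2))) := by
    have h3 : ∀ X : Fin lam → Fin n → Bool, (Real.exp (s * ∑ j, zc M (X j))) ^ 2 =
        ∏ j, Real.exp ((2 * s) * zc M (X j)) := by
      intro X
      rw [← Real.exp_sum, ← Finset.mul_sum, ← Real.exp_nat_mul]
      congr 1
      push_cast
      ring
    simp only [h3]
    rw [EP_prod p (fun _ x => Real.exp ((2 * s) * zc M x)), Finset.prod_const, Finset.card_univ,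
      Fintype.card_fin, E1_exp_zc, Real.exp_nat_mul]
    apply pow_le_pow_left₀
    · apply Finset.prod_nonneg
      intro i _
      have h4 : 1 ≤ Real.exp (2 * s) := Real.one_le_exp (by linarith)
      have := hz0 i
      nlinarith
    · have h5 : Real.exp (2 * s) - 1 ≤ 2 * s + 4 * s ^ 2 := by
        have := Real.abs_exp_sub_one_sub_id_le (x := 2 * s) (by
          rw [abs_of_nonneg (by linarith)]; exact hs1)
        have := (abs_le.mp this).2
        nlinarith
      have h6 : ∀ i ∈ M, 1 + (1 - p i) * (Real.exp (2 * s) - 1) ≤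
          Real.exp ((1 - p i) * (2 * s + 4 * s ^ 2)) := by
        intro i _
        have h7 := Real.add_one_le_exp ((1 - p i) * (2 * s + 4 * s ^ 2))
        have h8 := mul_le_mul_of_nonneg_left h5 (hz0 i)
        linarith
      calc ∏ i ∈ M, (1 + (1 - p i) * (Real.exp (2 * s) - 1)) ≤
            ∏ i ∈ M, Real.exp ((1 - p i) * (2 * s + 4 * s ^ 2)) := by
            apply Finset.prod_le_prod
            · intro i _
              have h4 : 1 ≤ Real.exp (2 * s) := Real.one_le_exp (by linarith)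
              have := hz0 i
              nlinarith
            · exact h6
        _ = Real.exp ((∑ i ∈ M, (1 - p i)) * (2 * s + 4 * s ^ 2)) := by
            rw [← Real.exp_sum, Finset.sum_mul]
        _ ≤ _ := by
            apply Real.exp_le_exp.mpr
            apply mul_le_mul_of_nonneg_right hm
            positivity
  have hbadnn : 0 ≤ EP p (fun X : Fin lam → Fin n → Bool =>
      if (good M θ X).card ≤ mu then (1:ℝ) else 0) :=
    EP_nonneg hp (fun X => by split_ifs <;> norm_num)
  have h9 : (EP p (fun X : Fin lam → Fin n → Bool => Real.exp (s * ∑ j, zc M (X j)) *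
      (if (good M θ X).card ≤ mu then (1:ℝ) else 0))) ^ 2 ≤
      (Real.exp (s * lam * (v - 1))) ^ 2 := by
    refine hcs.trans ?_
    refine (mul_le_mul h2 hbad hbadnn (Real.exp_pos _).le).trans ?_
    rw [← Real.exp_add, ← Real.exp_nat_mul]
    apply Real.exp_le_exp.mpr
    push_cast
    have hlam : (0:ℝ) ≤ lam := Nat.cast_nonneg _
    have h10 : (lam : ℝ) * (2 * s + 2 * s ^ 2 * (v + 1)) ≤ lam * (p0 / 8) :=
      mul_le_mul_of_nonneg_left hs hlam
    nlinarith
  exact le_of_sq_le_sq h9 (Real.exp_pos _).le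

end Pool.Agent.Helper26.UMDA
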